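import Pool.Agent.T6.H15.LN.Pts

/-!
# Equations with a minimal number of terms
-/

set_option autoImplicit false

open MvPolynomial

namespace Pool.Agent.T6.H15.LN

open Pool.Agent.T6.H15.ZP Pool.Agent.T6.H15.MZ Pool.Agent.T6.H15.UE Pool.Agent.T6.H15.HY

/-- the coefficients of the functions of a chain -/
def bw (γ : ℂ) (l j : ℕ) : ℂ := if j < l then 1 else if j = l then γ else 0

theorem bw_lt {γ : ℂ} {l j : ℕ} (h : j < l) : bw γ l j = 1 := if_pos h

theorem bw_eq {γ : ℂ} {l : ℕ} : bw γ l l = γ := by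
  unfold bw
  rw [if_neg (lt_irrefl l), if_pos rfl]

theorem bw_gt {γ : ℂ} {l j : ℕ} (h : l < j) : bw γ l j = 0 := by
  unfold bw
  rw [if_neg (by omega), if_neg (by omega)]

theorem bw_ne {γ : ℂ} {l N : ℕ} (hN : 3 ≤ N) (hl : l < N) (hγ : γ ≠ 0) (h1 : γ = 1 → l + 1 < N) :
    ∃ j < N, ∃ j' < N, bw γ l j ≠ bw γ l j' := by
  by_cases h : l + 1 < N
  · refine ⟨l, hl, N - 1, by omega, ?_⟩
    rw [bw_eq, bw_gt (by omega)]
    exact hγ
  · refine ⟨l, hl, 0, by omega, ?_⟩
    rw [bw_eq, bw_lt (by omega)]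
    exact fun h2 => h (h1 h2)

theorem bw_sub_ne {γ γ' : ℂ} {l l' N : ℕ} (hN : 3 ≤ N) (hll : l ≤ l') (hl' : l' < N)
    (hγ' : γ' ≠ 0) (h1 : γ' = 1 → l' + 1 < N)
    (hne : l = l' → γ ≠ γ') :
    ∃ j < N, ∃ j' < N, bw γ l j - bw γ' l' j ≠ bw γ l j' - bw γ' l' j' := by
  rcases hll.eq_or_lt with rfl | hlt
  · have h2 := hne rfl
    by_cases h0 : l = 0
    · refine ⟨l, hl', 1, by omega, ?_⟩
      rw [bw_eq, bw_eq, bw_gt (by omega), bw_gt (by omega), sub_self]
      exact sub_ne_zero.2 h2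
    · refine ⟨l, hl', 0, by omega, ?_⟩
      rw [bw_eq, bw_eq, bw_lt (by omega), bw_lt (by omega), sub_self]
      exact sub_ne_zero.2 h2
  · by_cases h3 : l' + 1 < N
    · refine ⟨l', hl', N - 1, by omega, ?_⟩
      rw [bw_eq, bw_gt hlt, bw_gt (by omega), bw_gt (by omega), sub_self, zero_sub]
      exact neg_ne_zero.2 hγ'
    · have h4 : γ' ≠ 1 := fun h5 => h3 (h1 h5)
      by_cases h0 : l = 0
      · refine ⟨l', hl', 1, by omega, ?_⟩
        rw [bw_eq, bw_gt hlt, bw_gt (by omega), bw_lt (by omega), zero_sub, zero_sub]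
        exact fun h5 => h4 (neg_injective h5)
      · refine ⟨l', hl', 0, by omega, ?_⟩
        rw [bw_eq, bw_gt hlt, bw_lt (by omega), bw_lt (by omega), zero_sub, sub_self]
        exact neg_ne_zero.2 hγ'

section

variable {τ : Type} [Fintype τ]

/-- An equation with the minimal number of terms. -/
theorem exists_min {X : Set (τ → ℂ)} (hX : Irred X) (ht : InTorus X)
    (hn : ∀ (a : τ → ℤ) (c : ℂ), IsConst X a c → a = 0)
    (hne : ∃ p : MvPolynomial τ ℂ, p ∈ idealOf X ∧ p ≠ 0) :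
    ∃ (N : ℕ) (m : ℕ → (τ →₀ ℕ)) (a : ℕ → ℂ), 3 ≤ N ∧ (∀ l, a l ≠ 0) ∧
      (∑ j ∈ Finset.range N, monomial (m j) (a j)) ∈ idealOf X ∧
      (∑ j ∈ Finset.range N, monomial (m j) (a j)) ≠ 0 ∧
      ∀ b : ℕ → ℂ, (∑ j ∈ Finset.range N, monomial (m j) (b j * a j)) ∈ idealOf X →
        ∀ j < N, ∀ j' < N, b j = b j' := by
  classical
  have hex : ∃ n, ∃ p : MvPolynomial τ ℂ, (p ∈ idealOf X ∧ p ≠ 0) ∧ p.support.card = n := by
    obtain ⟨p, hp⟩ := hne
    exact ⟨_, p, hp, rfl⟩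
  obtain ⟨p, ⟨hpX, hp0⟩, hcard⟩ := Nat.find_spec hex
  have hmin : ∀ q : MvPolynomial τ ℂ, q ∈ idealOf X → q ≠ 0 → p.support.card ≤ q.support.card := by
    intro q hq hq0
    rw [hcard]
    exact Nat.find_min' hex ⟨q, ⟨hq, hq0⟩, rfl⟩
  set N := p.support.card with hN
  let e := p.support.equivFin
  set m : ℕ → (τ →₀ ℕ) := fun l => if hl : l < N then (e.symm ⟨l, hl⟩ : τ →₀ ℕ) else 0 with hm
  set a : ℕ → ℂ := fun l => if hl : l < N then coeff (e.symm ⟨l, hl⟩ : τ →₀ ℕ) p else 1 with ha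
  have hmj : ∀ j : Fin N, m j = (e.symm j : τ →₀ ℕ) := by
    intro j
    simp only [hm, j.2, dif_pos]
    rfl
  have haj : ∀ j : Fin N, a j = coeff (e.symm j : τ →₀ ℕ) p := by
    intro j
    simp only [ha, j.2, dif_pos]
    rfl
  have hsum : ∑ j ∈ Finset.range N, monomial (m j) (a j) = p := by
    rw [Finset.sum_range]
    rw [Finset.sum_congr rfl fun j _ => by rw [hmj j, haj j]]
    have h5 : ∑ j : Fin N, monomial (e.symm j : τ →₀ ℕ) (coeff (e.symm j : τ →₀ ℕ) p) =
        ∑ v : p.support, monomial (v : τ →₀ ℕ) (coeff (v : τ →₀ ℕ) p) :=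
      Equiv.sum_comp e.symm (fun v : p.support => monomial (v : τ →₀ ℕ) (coeff (v : τ →₀ ℕ) p))
    rw [h5, Finset.sum_coe_sort p.support fun v => monomial v (coeff v p)]
    exact support_sum_monomial_coeff p
  have ha0 : ∀ l, a l ≠ 0 := by
    intro l
    simp only [ha]
    split_ifs with h1
    · exact mem_support_iff.1 (e.symm ⟨l, h1⟩).2
    · exact one_ne_zero
  have hminj : ∀ l l', l < N → l' < N → m l = m l' → l = l' := by
    intro l l' hl hl' h1
    have h2 := hmj ⟨l, hl⟩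
    have h3 := hmj ⟨l', hl'⟩
    dsimp only at h2 h3
    rw [h2, h3] at h1
    have h4 := e.symm.injective (Subtype.ext h1)
    exact congrArg Fin.val h4
  have hN1 : N ≠ 0 := by
    intro h0
    rw [hN, Finset.card_eq_zero, support_eq_empty] at h0
    exact hp0 h0
  have hN2 : N ≠ 1 := by
    intro h0
    rw [h0, Finset.sum_range_one] at hsum
    obtain ⟨x, hx⟩ := hX.nonempty
    have h1 := mem_idealOf.1 hpX x hx
    rw [← hsum] at h1
    exact eval_mono_ne (ht x hx) (ha0 0) (m 0) h1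
  have hN3 : N ≠ 2 := by
    intro h0
    have hm01 : m 0 ≠ m 1 := fun h1 => absurd (hminj 0 1 (by omega) (by omega) h1) (by omega)
    rw [h0, Finset.sum_range_succ, Finset.sum_range_one] at hsum
    apply hm01
    have h1 := hn (fun i => (m 0 i : ℤ) - m 1 i) (-(a 1) / a 0) (by
      intro x hx
      have h2 := mem_idealOf.1 hpX x hx
      rw [← hsum, map_add, eval_monomial', eval_monomial'] at h2
      have h3 : chr x (fun i => (m 0 i : ℤ) - m 1 i) = (∏ i, x i ^ m 0 i) / ∏ i, x i ^ m 1 i := by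
        unfold chr
        rw [← Finset.prod_div_distrib]
        refine Finset.prod_congr rfl fun i _ => ?_
        rw [zpow_sub₀ (ht x hx i), zpow_natCast, zpow_natCast]
      rw [h3]
      have h4 : (∏ i, x i ^ m 1 i) ≠ 0 :=
        Finset.prod_ne_zero_iff.2 fun i _ => pow_ne_zero _ (ht x hx i)
      rw [div_eq_div_iff h4 (ha0 0)]
      linear_combination h2)
    ext i
    have h2 := congrFun h1 i
    have h3 : (m 0 i : ℤ) - m 1 i = 0 := h2
    omega
  refine ⟨N, m, a, by omega, ha0, by rw [hsum]; exact hpX, by rw [hsum]; exact hp0, ?_⟩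
  intro b hb j hj j' hj'
  by_contra hne'
  set q : MvPolynomial τ ℂ := ∑ i ∈ Finset.range N, monomial (m i) ((b i - b j') * a i) with hq
  have hqX : q ∈ idealOf X := by
    have h1 : q = (∑ i ∈ Finset.range N, monomial (m i) (b i * a i)) -
        C (b j') * ∑ i ∈ Finset.range N, monomial (m i) (a i) := by
      rw [hq, Finset.mul_sum, ← Finset.sum_sub_distrib]
      refine Finset.sum_congr rfl fun i _ => ?_
      rw [C_mul_monomial, ← map_sub, sub_mul]
    rw [h1]
    refine sub_mem hb (Ideal.mul_mem_left _ _ ?_)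
    rw [hsum]
    exact hpX
  have hcoeff : ∀ i < N, coeff (m i) q = (b i - b j') * a i := by
    intro i hi
    rw [hq, coeff_sum, Finset.sum_eq_single i]
    · rw [coeff_monomial, if_pos rfl]
    · intro k hk hki
      rw [coeff_monomial, if_neg]
      intro h2
      exact hki (hminj k i (Finset.mem_range.1 hk) hi h2)
    · intro h2
      exact absurd (Finset.mem_range.2 hi) h2
  have hq0 : q ≠ 0 := by
    intro h0
    have h1 := hcoeff j hj
    rw [h0, coeff_zero] at h1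
    exact mul_ne_zero (sub_ne_zero.2 hne') (ha0 j) h1.symm
  have h1 := hmin q hqX hq0
  have h2 : q.support ⊆ ((Finset.range N).erase j').image m := by
    intro v hv
    rw [mem_support_iff, hq, coeff_sum] at hv
    obtain ⟨i, hi, hi0⟩ := Finset.exists_ne_zero_of_sum_ne_zero hv
    rw [coeff_monomial] at hi0
    rw [Finset.mem_image]
    have h4 : m i = v := by
      by_contra h3
      exact hi0 (if_neg h3)
    rw [if_pos h4] at hi0
    refine ⟨i, Finset.mem_erase.2 ⟨?_, hi⟩, h4⟩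
    rintro rfl
    rw [sub_self, zero_mul] at hi0
    exact hi0 rfl
  have h3 := (Finset.card_le_card h2).trans Finset.card_image_le
  rw [Finset.card_erase_of_mem (Finset.mem_range.2 hj'), Finset.card_range] at h3
  omega

variable {σ : Type} [Fintype σ] [DecidableEq σ]

/-- the functions of a closed chain, without the mask -/
noncomputable def rc (H : Ln σ) (m : ℕ → (τ →₀ ℕ)) (a : ℕ → ℂ) :
    σ ⊕ (ℕ × σ) → MvPolynomial τ ℂ
  | Sum.inl i => C (H.ga i) * C H.de
  | Sum.inr (l, i) => (∑ j ∈ Finset.range l, monomial (m j) (a j)) +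
      C (H.ga i) * monomial (m l) (a l)

/-- the independent functions of a closed chain -/
def Nam (H : Ln σ) (N : ℕ) : σ ⊕ (ℕ × σ) → Prop
  | Sum.inl _ => True
  | Sum.inr (l, i) => l < N ∧ i ≠ H.i0 ∧ (i = H.i1 → l + 1 < N)

/-- the coefficients -/
def bv (H : Ln σ) : σ ⊕ (ℕ × σ) → ℕ → ℂ
  | Sum.inl _ => fun _ => 0
  | Sum.inr (l, i) => bw (H.ga i) l

/-- the constants -/
def kv (H : Ln σ) : σ ⊕ (ℕ × σ) → ℂ
  | Sum.inl i => H.ga i * H.de
  | Sum.inr _ => 0

theorem rc_eq (H : Ln σ) (m : ℕ → (τ →₀ ℕ)) (a : ℕ → ℂ) (t : ℂ) {N : ℕ} {p : σ ⊕ (ℕ × σ)}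
    (hp : Nam H N p) : rc H m (fun j => t * a j) p =
      C t * (∑ j ∈ Finset.range N, monomial (m j) (bv H p j * a j)) + C (kv H p) := by
  rcases p with i | ⟨l, i⟩
  · unfold rc bv kv
    simp only [zero_mul, map_zero, Finset.sum_const_zero, mul_zero, zero_add, map_mul]
  · obtain ⟨hl, -, -⟩ := hp
    unfold rc bv kv
    dsimp only
    rw [C_0, add_zero, Finset.mul_sum, ← Finset.sum_range_add_sum_Ico _ hl.le]
    congr 1
    · refine Finset.sum_congr rfl fun j hj => ?_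
      rw [bw_lt (Finset.mem_range.1 hj), one_mul, C_mul_monomial]
    · rw [Finset.sum_eq_sum_Ico_succ_bot hl, bw_eq, C_mul_monomial, C_mul_monomial]
      rw [Finset.sum_eq_zero, add_zero]
      · congr 1
        ring
      · intro j hj
        rw [Finset.mem_Ico] at hj
        rw [bw_gt (by omega), zero_mul, map_zero, mul_zero]

theorem ga_ne0 {H : Ln σ} {i : σ} (hi : i ≠ H.i0) : H.ga i ≠ 0 := by
  intro h
  rw [← H.h0] at h
  exact hi (H.hga h)

theorem ga_one {H : Ln σ} {i : σ} (hi : H.ga i = 1) : i = H.i1 := by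
  rw [← H.h1] at hi
  exact H.hga hi

theorem bv_ne {H : Ln σ} {N : ℕ} (hN : 3 ≤ N) {p q : σ ⊕ (ℕ × σ)} (hp : Nam H N p)
    (hq : Nam H N q) (hpq : p ≠ q) (hk : kv H p = kv H q) :
    ∃ j < N, ∃ j' < N, bv H p j - bv H q j ≠ bv H p j' - bv H q j' := by
  rcases p with i | ⟨l, i⟩ <;> rcases q with i' | ⟨l', i'⟩
  · exfalso
    apply hpq
    congr 1
    exact H.hga (mul_right_cancel₀ H.hde hk)
  · obtain ⟨h1, h2, h3⟩ := hq
    obtain ⟨j, hj, j', hj', h4⟩ := bw_ne (γ := H.ga i') hN h1 (ga_ne0 h2) fun h => h3 (ga_one h)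
    refine ⟨j, hj, j', hj', ?_⟩
    unfold bv
    dsimp only
    rw [zero_sub, zero_sub]
    exact fun h5 => h4 (neg_injective h5)
  · obtain ⟨h1, h2, h3⟩ := hp
    obtain ⟨j, hj, j', hj', h4⟩ := bw_ne (γ := H.ga i) hN h1 (ga_ne0 h2) fun h => h3 (ga_one h)
    refine ⟨j, hj, j', hj', ?_⟩
    unfold bv
    dsimp only
    rw [sub_zero, sub_zero]
    exact h4
  · obtain ⟨h1, h2, h3⟩ := hp
    obtain ⟨g1, g2, g3⟩ := hq
    rcases le_total l l' with hle | hle
    · exact bw_sub_ne (γ := H.ga i) (γ' := H.ga i') hN hle g1 (ga_ne0 g2)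
        (fun h => g3 (ga_one h)) (fun h4 h5 => hpq (by rw [h4, H.hga h5]))
    · obtain ⟨j, hj, j', hj', h4⟩ := bw_sub_ne (γ := H.ga i') (γ' := H.ga i) hN hle h1 (ga_ne0 h2)
        (fun h => h3 (ga_one h)) (fun h4 h5 => hpq (by rw [h4, H.hga h5]))
      refine ⟨j, hj, j', hj', ?_⟩
      unfold bv
      dsimp only
      intro h5
      apply h4
      linear_combination -h5

/-- A closed chain for an equation with the minimal number of terms. -/
theorem exists_chain (H : Ln σ) {X : Set (τ → ℂ)} (hX : Irred X) (ht : InTorus X)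
    (hn : ∀ (a : τ → ℤ) (c : ℂ), IsConst X a c → a = 0)
    (hne : ∃ p : MvPolynomial τ ℂ, p ∈ idealOf X ∧ p ≠ 0) :
    ∃ (N : ℕ) (m : ℕ → (τ →₀ ℕ)) (a : ℕ → ℂ), 0 < N ∧ (∀ l, a l ≠ 0) ∧
      (∑ j ∈ Finset.range N, monomial (m j) (a j)) ∈ idealOf X ∧
      (∑ j ∈ Finset.range N, monomial (m j) (a j)) ≠ 0 ∧
      ∀ p q, Nam H N p → Nam H N q → p ≠ q → rc H m a p - rc H m a q ∉ idealOf X := by
  classical
  obtain ⟨N, m, a, hN, ha, h1, h2, h3⟩ := exists_min hX ht hn hne
  let P := σ ⊕ (Fin N × σ)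
  let cast : P → σ ⊕ (ℕ × σ) := Sum.map id (Prod.map Fin.val id)
  have hcast : ∀ p : σ ⊕ (ℕ × σ), Nam H N p → ∃ p' : P, cast p' = p := by
    rintro (i | ⟨l, i⟩) hp
    · exact ⟨Sum.inl i, rfl⟩
    · exact ⟨Sum.inr (⟨l, hp.1⟩, i), rfl⟩
  set Q : σ ⊕ (ℕ × σ) → σ ⊕ (ℕ × σ) → MvPolynomial τ ℂ := fun p q =>
    ∑ j ∈ Finset.range N, monomial (m j) ((bv H p j - bv H q j) * a j) with hQ
  have hfin : ({0} ∪ ⋃ p : P, ⋃ q : P, {t : ℂ | (Nam H N (cast p) ∧ Nam H N (cast q) ∧
      cast p ≠ cast q) ∧ C t * Q (cast p) (cast q) + C (kv H (cast p) - kv H (cast q)) ∈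
        idealOf X} : Set ℂ).Finite := by
    refine (Set.finite_singleton _).union ?_
    refine Set.finite_iUnion fun p => Set.finite_iUnion fun q => ?_
    by_cases hpq : Nam H N (cast p) ∧ Nam H N (cast q) ∧ cast p ≠ cast q
    · obtain ⟨g1, g2, g3⟩ := hpq
      by_cases hQX : Q (cast p) (cast q) ∈ idealOf X
      · have hk : kv H (cast p) - kv H (cast q) ≠ 0 := by
          intro h0
          obtain ⟨j, hj, j', hj', h4⟩ := bv_ne hN g1 g2 g3 (sub_eq_zero.1 h0)
          exact h4 (h3 (fun j => bv H (cast p) j - bv H (cast q) j) hQX j hj j' hj')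
        convert Set.finite_empty
        ext t
        simp only [Set.mem_ofPred_eq, Set.mem_empty_iff_false, iff_false, not_and]
        intro _ hmem
        obtain ⟨x, hx⟩ := hX.nonempty
        have h5 := mem_idealOf.1 hmem x hx
        rw [map_add, map_mul, mem_idealOf.1 hQX x hx, mul_zero, zero_add, eval_C] at h5
        exact hk h5
      · exact (finite_bad hX hQX _).subset fun t ht => ht.2
    · convert Set.finite_empty
      ext t
      simp only [Set.mem_ofPred_eq, Set.mem_empty_iff_false, iff_false, not_and]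
      intro h4
      exact absurd h4 hpq
  obtain ⟨t, ht'⟩ := hfin.infinite_compl.nonempty
  rw [Set.mem_compl_iff, Set.mem_union, not_or] at ht'
  obtain ⟨ht0, ht1⟩ := ht'
  have ht0' : t ≠ 0 := ht0
  have hsum : ∑ j ∈ Finset.range N, monomial (m j) (t * a j) =
      C t * ∑ j ∈ Finset.range N, monomial (m j) (a j) := by
    rw [Finset.mul_sum]
    refine Finset.sum_congr rfl fun j _ => ?_
    rw [C_mul_monomial]
  refine ⟨N, m, fun j => t * a j, by omega, fun l => mul_ne_zero ht0' (ha l), ?_, ?_, ?_⟩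
  · rw [hsum]
    exact Ideal.mul_mem_left _ _ h1
  · rw [hsum]
    exact mul_ne_zero (by rwa [Ne, C_eq_zero]) h2
  · intro p q hp hq hpq hmem
    apply ht1
    obtain ⟨p', rfl⟩ := hcast p hp
    obtain ⟨q', rfl⟩ := hcast q hq
    rw [Set.mem_iUnion]
    refine ⟨p', ?_⟩
    rw [Set.mem_iUnion]
    refine ⟨q', ⟨hp, hq, hpq⟩, ?_⟩
    rw [rc_eq H m a t hp, rc_eq H m a t hq] at hmem
    convert hmem using 1
    rw [hQ]
    dsimp only
    have h5 : ∀ j, (monomial (m j) ((bv H (cast p') j - bv H (cast q') j) * a j) :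
        MvPolynomial τ ℂ) = monomial (m j) (bv H (cast p') j * a j) -
          monomial (m j) (bv H (cast q') j * a j) := by
      intro j
      rw [sub_mul, map_sub]
    rw [Finset.sum_congr rfl fun j _ => h5 j, Finset.sum_sub_distrib, C_sub]
    ring

end

end Pool.Agent.T6.H15.LN
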