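import Pool.Agent.T6.H15.LN.Chain

/-!
# The chains for the powers of a variety
-/

set_option autoImplicit false

open MvPolynomial

namespace Pool.Agent.T6.H15.LN

open Pool.Agent.T6.H15.ZP Pool.Agent.T6.H15.MZ Pool.Agent.T6.H15.UE Pool.Agent.T6.H15.HY

section Cn

variable {σ : Type} [Fintype σ] [DecidableEq σ] {ι Ch : Type} [Fintype ι] [Fintype Ch]
  {H : Ln σ} {E : Dat ι Ch} {c : Ch}

/-- the place of an independent function in the chain -/
def cn : Rx H E c → σ ⊕ (ℕ × σ)
  | Sum.inl i => Sum.inl i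
  | Sum.inr (Sum.inl (l, i)) => Sum.inr ((l : ℕ), (i : σ))
  | Sum.inr (Sum.inr l) => Sum.inr ((l : ℕ), H.i1)

theorem cn_inj {p q : Rx H E c} (h : cn p = cn q) : p = q := by
  rcases p with i | ⟨l, i⟩ | l <;> rcases q with i' | ⟨l', i'⟩ | l'
  · have h1 : i = i' := Sum.inl_injective h
    rw [h1]
  · exact absurd h (by simp [cn])
  · exact absurd h (by simp [cn])
  · exact absurd h (by simp [cn])
  · have h1 := Sum.inr_injective h
    rw [Prod.mk.injEq] at h1
    rw [Fin.ext h1.1, Subtype.ext h1.2]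
  · have h1 := Sum.inr_injective h
    rw [Prod.mk.injEq] at h1
    exact absurd h1.2 i.2.2
  · exact absurd h (by simp [cn])
  · have h1 := Sum.inr_injective h
    rw [Prod.mk.injEq] at h1
    exact absurd h1.2.symm i'.2.2
  · have h1 := Sum.inr_injective h
    rw [Prod.mk.injEq] at h1
    rw [Fin.ext h1.1]

theorem cn_nam (hc : E.L c + 1 = E.M c) (p : Rx H E c) : Nam H (E.M c) (cn p) := by
  rcases p with i | ⟨l, i⟩ | l
  · trivial
  · exact ⟨l.2, i.2.1, fun h => absurd h i.2.2⟩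
  · have h1 := l.2
    exact ⟨by omega, H.ne.symm, fun _ => by omega⟩

theorem rg_ix (p : Rx H E c) : rg H E (ix H E c p).1 (ix H E c p).2 =
    rc H (E.m c) (E.a c) (cn p) := by
  rcases p with i | ⟨l, i⟩ | l
  · show (0 : MvPolynomial ι ℂ) + C (H.ga i) * C H.de = C (H.ga i) * C H.de
    rw [zero_add]
  · rfl
  · rfl

theorem cn_free (hc : E.M c = 0) (p : Rx H E c) : ∃ k, cn p = Sum.inl k := by
  rcases p with i | ⟨l, i⟩ | l
  · exact ⟨i, rfl⟩
  · exact absurd l.2 (by omega)
  · exact absurd l.2 (by have := E.hL c; omega)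

theorem cn_vis (hc : E.M c = 1) (p : Rx H E c) :
    (∃ k, cn p = Sum.inl k) ∨ ∃ k, k ≠ H.i0 ∧ cn p = Sum.inr (0, k) := by
  rcases p with i | ⟨l, i⟩ | l
  · exact Or.inl ⟨i, rfl⟩
  · refine Or.inr ⟨i, i.2.1, ?_⟩
    have h1 : (l : ℕ) = 0 := by
      have := l.2
      omega
    show (Sum.inr ((l : ℕ), (i : σ)) : σ ⊕ (ℕ × σ)) = Sum.inr (0, (i : σ))
    rw [h1]
  · refine Or.inr ⟨H.i1, H.ne.symm, ?_⟩
    have h1 : (l : ℕ) = 0 := by
      have := l.2
      have := E.hL c
      omega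
    show (Sum.inr ((l : ℕ), H.i1) : σ ⊕ (ℕ × σ)) = Sum.inr (0, H.i1)
    rw [h1]

theorem rc_inl {τ : Type} (m : ℕ → (τ →₀ ℕ)) (a : ℕ → ℂ) (i : σ) :
    rc H m a (Sum.inl i) = C (H.ga i) * C H.de := rfl

theorem rc_inr {τ : Type} (m : ℕ → (τ →₀ ℕ)) (a : ℕ → ℂ) (l : ℕ) (i : σ) :
    rc H m a (Sum.inr (l, i)) = (∑ j ∈ Finset.range l, monomial (m j) (a j)) +
      C (H.ga i) * monomial (m l) (a l) := rfl

theorem rc_rename {τ : Type} (f : τ → ι) (m : ℕ → (τ →₀ ℕ)) (a : ℕ → ℂ) (q : σ ⊕ (ℕ × σ)) :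
    rc H (fun l => (m l).mapDomain f) a q = rename f (rc H m a q) := by
  rcases q with i | ⟨l, i⟩
  · rw [rc_inl, rc_inl, map_mul, rename_C, rename_C]
  · rw [rc_inr, rc_inr, map_add, map_sum, map_mul, rename_C, rename_monomial]
    congr 1
    refine Finset.sum_congr rfl fun j _ => ?_
    rw [rename_monomial]

end Cn

section

variable {h : ℕ} {σ : Type} [Fintype σ] [DecidableEq σ]

/-- No character is constant on a coordinate projection. -/
theorem ncon_img {V : Set (Fin h → ℂ)} (ht : InTorus V)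
    (hn : ∀ a : Fin h → ℤ, a ≠ 0 → ∀ c, ¬ IsConst V a c) {τ : Type} [Fintype τ] {β : τ → Fin h}
    (hβ : Function.Injective β) (a : τ → ℤ) (c : ℂ) (hc : IsConst (img β V) a c) : a = 0 := by
  classical
  set b : Fin h → ℤ := ∑ o, a o • Pi.single (β o) (1 : ℤ) with hb
  have h1 : IsConst V b c := by
    intro x hx
    rw [hb, chr_sum (ht x hx), ← hc _ ⟨x, hx, rfl⟩]
    unfold chr
    refine Finset.prod_congr rfl fun o _ => ?_
    have h6 := chr_zsmul x (a o) (Pi.single (β o) (1 : ℤ))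
    unfold chr at h6
    rw [h6]
    have h7 := chr_single x (β o)
    unfold chr at h7
    rw [h7]
  have h2 : b = 0 := by
    by_contra hne
    exact hn b hne c h1
  funext o
  have h3 := congrFun h2 (β o)
  rw [hb, Finset.sum_apply, Finset.sum_eq_single o] at h3
  · simpa using h3
  · intro j _ hj
    have h4 : β o ≠ β j := fun h => hj (hβ h).symm
    simp [Pi.single_apply, h4]
  · intro h
    exact absurd (Finset.mem_univ o) h

theorem vb_inj {s0 : Finset (Fin h)} {b : Fin h} (hb : b ∉ s0) :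
    Function.Injective (vb (s0 := s0) b) := by
  rintro (- | a) (- | a') haa
  · rfl
  · exact absurd (show (a' : Fin h) ∈ s0 from a'.2) (by
      have h1 : b = (a' : Fin h) := haa
      rwa [← h1])
  · exact absurd (show (a : Fin h) ∈ s0 from a.2) (by
      have h1 : (a : Fin h) = b := haa
      rwa [h1])
  · have h1 : (a : Fin h) = a' := haa
    rw [Subtype.ext h1]

/-- closed chains for one copy -/
structure Cop (H : Ln σ) (V : Set (Fin h → ℂ)) (s0 : Finset (Fin h)) where
  N : Bt s0 → ℕ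
  m : Bt s0 → ℕ → (Option s0 →₀ ℕ)
  a : Bt s0 → ℕ → ℂ
  hN : ∀ b, 0 < N b
  ha : ∀ b l, a b l ≠ 0
  hcl : ∀ b : Bt s0, (∑ j ∈ Finset.range (N b), monomial (m b j) (a b j)) ∈
    idealOf (img (vb (b : Fin h)) V)
  hne : ∀ b, (∑ j ∈ Finset.range (N b), monomial (m b j) (a b j)) ≠ 0
  hd : ∀ (b : Bt s0) (p q), Nam H (N b) p → Nam H (N b) q → p ≠ q →
    rc H (m b) (a b) p - rc H (m b) (a b) q ∉ idealOf (img (vb (b : Fin h)) V)

theorem exists_cop (H : Ln σ) {V : Set (Fin h → ℂ)} {s0 : Finset (Fin h)} (hV : Irred V)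
    (ht : InTorus V) (hn : ∀ a : Fin h → ℤ, a ≠ 0 → ∀ c, ¬ IsConst V a c)
    (hsc : s0.card = dim V) : Nonempty (Cop H V s0) := by
  classical
  have hb : ∀ b : Bt s0, ∃ (N : ℕ) (m : ℕ → (Option s0 →₀ ℕ)) (a : ℕ → ℂ), 0 < N ∧
      (∀ l, a l ≠ 0) ∧
      (∑ j ∈ Finset.range N, monomial (m j) (a j)) ∈ idealOf (img (vb (b : Fin h)) V) ∧
      (∑ j ∈ Finset.range N, monomial (m j) (a j)) ≠ 0 ∧
      ∀ p q, Nam H N p → Nam H N q → p ≠ q →
        rc H m a p - rc H m a q ∉ idealOf (img (vb (b : Fin h)) V) := by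
    intro b
    apply exists_chain H (irred_img hV)
    · rintro _ ⟨v, hv, rfl⟩ i
      exact ht v hv _
    · exact fun a c hc => ncon_img ht hn (vb_inj b.2) a c hc
    · by_contra hcon
      push Not at hcon
      have h2 : Indep V (vb (s0 := s0) (b : Fin h)) := by
        intro p hp
        apply hcon
        rw [mem_idealOf]
        rintro _ ⟨v, hv, rfl⟩
        exact hp v hv
      have h3 := h2.card_le hV
      rw [Fintype.card_option, Fintype.card_coe, hsc] at h3
      omega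
  choose N m a h1 h2 h3 h4 h5 using hb
  exact ⟨⟨N, m, a, h1, h2, h3, h4, h5⟩⟩

variable {H : Ln σ} {V : Set (Fin h → ℂ)} {s0 : Finset (Fin h)}

/-- the data -/
noncomputable def dat (cop : Cop H V s0) (T : Type) (j : ℕ) : Dat (T × Fin h) (Chn s0 T j) where
  M c := match c with
    | Sum.inl (_, Sum.inl _) => 1
    | Sum.inl (_, Sum.inr b) => cop.N b
    | Sum.inr _ => 0
  L c := match c with
    | Sum.inl (_, Sum.inl _) => 1
    | Sum.inl (_, Sum.inr b) => cop.N b - 1
    | Sum.inr _ => 0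
  hL c := match c with
    | Sum.inl (_, Sum.inl _) => le_rfl
    | Sum.inl (_, Sum.inr b) => Nat.sub_le _ _
    | Sum.inr _ => le_rfl
  m c := match c with
    | Sum.inl (t, Sum.inl i) => fun _ => Finsupp.single (t, i) 1
    | Sum.inl (t, Sum.inr b) => fun l => (cop.m b l).mapDomain (vt t (b : Fin h))
    | Sum.inr _ => fun _ => 0
  a c := match c with
    | Sum.inl (_, Sum.inl _) => fun _ => 1
    | Sum.inl (_, Sum.inr b) => cop.a b
    | Sum.inr _ => fun _ => 1
  vis p := Sum.inl (p.1, Sum.inl p.2)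

section

variable {T : Type} [Fintype T] (cop : Cop H V s0) (j : ℕ)

theorem ps_b (t : T) (b : Bt s0) (l : ℕ) : (dat cop T j).ps (Sum.inl (t, Sum.inr b)) l =
    rename (vt t (b : Fin h)) (∑ j ∈ Finset.range l, monomial (cop.m b j) (cop.a b j)) := by
  unfold Dat.ps
  rw [map_sum]
  refine Finset.sum_congr rfl fun i _ => ?_
  rw [rename_monomial]
  rfl

theorem mem_vt (hV : Irred V) (t : T) (b : Fin h) (q : MvPolynomial (Option s0) ℂ) :
    rename (vt t b) q ∈ idealOf (VT T V) ↔ q ∈ idealOf (img (vb b) V) := by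
  rw [← img_vt hV t b, mem_idealOf_img]

theorem affine_not_mem (hV : Irred V) (hn : ∀ a : Fin h → ℤ, a ≠ 0 → ∀ c, ¬ IsConst V a c)
    (t : T) (i : Fin h) {d e : ℂ} (hde : d ≠ 0 ∨ e ≠ 0) :
    (C d + C e * X (t, i) : MvPolynomial (T × Fin h) ℂ) ∉ idealOf (VT T V) := by
  classical
  intro hmem
  have h0 : ∀ v ∈ V, d + e * v i = 0 := by
    intro v hv
    obtain ⟨x, hx, h1⟩ := exists_extend hV.nonempty t hv
    have h2 := mem_idealOf.1 hmem x hx
    rw [map_add, map_mul, eval_X, eval_C, eval_C] at h2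
    rw [← h1]
    exact h2
  by_cases he : e = 0
  · obtain ⟨v, hv⟩ := hV.nonempty
    have h1 := h0 v hv
    rw [he, zero_mul, add_zero] at h1
    exact (hde.resolve_right fun h => h he) h1
  · refine hn (Pi.single i 1) ?_ (-d / e) fun v hv => ?_
    · intro h0
      have h1 := congrFun h0 i
      rw [Pi.single_eq_same] at h1
      exact one_ne_zero h1
    · rw [chr_single, eq_div_iff he]
      linear_combination h0 v hv

theorem hdist_dat (hV : Irred V) (hn : ∀ a : Fin h → ℤ, a ≠ 0 → ∀ c, ¬ IsConst V a c)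
    (c : Chn s0 T j) (p q : Rx H (dat cop T j) c) (hpq : p ≠ q) :
    rg H (dat cop T j) (ix H _ c p).1 (ix H _ c p).2 -
      rg H (dat cop T j) (ix H _ c q).1 (ix H _ c q).2 ∉ idealOf (VT T V) := by
  classical
  have hcn : cn p ≠ cn q := fun h => hpq (cn_inj h)
  rw [rg_ix, rg_ix]
  have hdiff : ∀ k k' : σ, (Sum.inl k : σ ⊕ (ℕ × σ)) ≠ Sum.inl k' →
      H.ga k * H.de - H.ga k' * H.de ≠ 0 := by
    intro k k' hk h0
    apply hk
    congr 1
    exact H.hga (mul_right_cancel₀ H.hde (sub_eq_zero.1 h0))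
  rcases c with ⟨t, i | b⟩ | r
  · have hM : (dat cop T j).M (Sum.inl (t, Sum.inl i)) = 1 := rfl
    have e1 : ∀ k : σ, rc H ((dat cop T j).m (Sum.inl (t, Sum.inl i)))
        ((dat cop T j).a (Sum.inl (t, Sum.inl i))) (Sum.inl k) =
        C (H.ga k * H.de) + C 0 * X (t, i) := by
      intro k
      rw [rc_inl, C_0, zero_mul, add_zero, C_mul]
    have e2 : ∀ k : σ, rc H ((dat cop T j).m (Sum.inl (t, Sum.inl i)))
        ((dat cop T j).a (Sum.inl (t, Sum.inl i))) (Sum.inr (0, k)) =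
        C 0 + C (H.ga k) * X (t, i) := by
      intro k
      rw [rc_inr, Finset.sum_range_zero, C_0]
      rfl
    have e3 : ∀ d e d' e' : ℂ, (C d + C e * X (t, i)) - (C d' + C e' * X (t, i)) =
        (C (d - d') + C (e - e') * X (t, i) : MvPolynomial (T × Fin h) ℂ) := by
      intro d e d' e'
      rw [C_sub, C_sub]
      ring
    rcases cn_vis hM p with ⟨k, hk⟩ | ⟨k, hk0, hk⟩ <;>
      rcases cn_vis hM q with ⟨k', hk'⟩ | ⟨k', hk0', hk'⟩ <;> rw [hk, hk'] at hcn ⊢
    · rw [e1, e1, e3]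
      exact affine_not_mem hV hn t i (Or.inl (hdiff k k' hcn))
    · rw [e1, e2, e3]
      exact affine_not_mem hV hn t i (Or.inr (by
        rw [zero_sub]
        exact neg_ne_zero.2 (ga_ne0 hk0')))
    · rw [e1, e2, e3]
      exact affine_not_mem hV hn t i (Or.inr (by
        rw [sub_zero]
        exact ga_ne0 hk0))
    · rw [e2, e2, e3]
      exact affine_not_mem hV hn t i (Or.inr (sub_ne_zero.2 fun h0 => hcn (by rw [H.hga h0])))
  · have e1 : ∀ q : σ ⊕ (ℕ × σ), rc H ((dat cop T j).m (Sum.inl (t, Sum.inr b)))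
        ((dat cop T j).a (Sum.inl (t, Sum.inr b))) q =
        rename (vt t (b : Fin h)) (rc H (cop.m b) (cop.a b) q) := fun q =>
      rc_rename (vt t (b : Fin h)) (cop.m b) (cop.a b) q
    rw [e1, e1, ← map_sub, mem_vt hV]
    have hc : (dat cop T j).L (Sum.inl (t, Sum.inr b)) + 1 =
      (dat cop T j).M (Sum.inl (t, Sum.inr b)) := Nat.sub_add_cancel (cop.hN b)
    exact cop.hd b _ _ (cn_nam hc p) (cn_nam hc q) hcn
  · obtain ⟨k, hk⟩ := cn_free (show (dat cop T j).M (Sum.inr r) = 0 from rfl) p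
    obtain ⟨k', hk'⟩ := cn_free (show (dat cop T j).M (Sum.inr r) = 0 from rfl) q
    rw [hk, hk'] at hcn ⊢
    rw [rc_inl, rc_inl]
    obtain ⟨v, hv⟩ := hV.nonempty
    have hx : (fun p : T × Fin h => v p.2) ∈ VT T V := fun _ => hv
    intro hmem
    have h2 := mem_idealOf.1 hmem _ hx
    simp only [map_sub, map_mul, eval_C] at h2
    exact hdiff k k' hcn h2

/-- **The chains have all the properties.** -/
theorem sys_dat (hV : Irred V) (ht : InTorus V)
    (hn : ∀ a : Fin h → ℤ, a ≠ 0 → ∀ c, ¬ IsConst V a c)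
    (hs : Indep V (fun i : s0 => (i : Fin h))) (hirr : Irred (VT T V)) :
    Sys H (dat cop T j) (VT T V) ((Finset.univ : Finset T) ×ˢ s0) where
  irr := hirr
  tor := fun x hx p => ht _ (hx p.1) p.2
  ncon := ncon_VT hV ht hn
  ind := indep_VT hs hV.nonempty
  ha := by
    rintro (⟨t, i | b⟩ | q) l
    · exact one_ne_zero
    · exact cop.ha b l
    · exact one_ne_zero
  hcl := by
    rintro (⟨t, i | b⟩ | q)
    · exact Or.inl rfl
    · right
      constructor
      · exact Nat.sub_add_cancel (cop.hN b)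
      · rw [ps_b, mem_vt hV]
        exact cop.hcl b
    · exact Or.inl rfl
  hdist := hdist_dat cop j hV hn
  vM := fun p => Nat.one_pos
  vm := fun p => rfl
  va := fun p => rfl
  dep := by
    rintro ⟨t, b⟩ hb
    have hb' : b ∉ s0 := by simpa using hb
    refine ⟨Sum.inl (t, Sum.inr ⟨b, hb'⟩), Nat.sub_add_cancel (cop.hN _), ?_⟩
    let f : Option s0 → Option ((Finset.univ : Finset T) ×ˢ s0 : Finset (T × Fin h)) :=
      Option.map fun a => ⟨(t, (a : Fin h)), by simp⟩
    have hf : Function.Injective f := by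
      apply Option.map_injective
      intro a a' haa
      have h1 := congrArg (fun x => (Subtype.val x).2) haa
      exact Subtype.ext h1
    refine ⟨rename f (∑ j ∈ Finset.range (cop.N ⟨b, hb'⟩),
      monomial (cop.m ⟨b, hb'⟩ j) (cop.a ⟨b, hb'⟩ j)), ?_, ?_⟩
    · intro h0
      apply cop.hne ⟨b, hb'⟩
      exact (map_eq_zero_iff _ (rename_injective f hf)).1 h0
    · have h1 : (dat cop T j).M (Sum.inl (t, Sum.inr ⟨b, hb'⟩)) = cop.N ⟨b, hb'⟩ := rfl
      rw [h1, ps_b, rename_rename]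
      congr 1
      congr 1
      funext o
      rcases o with - | o <;> rfl
  card := by
    have hM : ∑ c, (dat cop T j).M c = Fintype.card T * (h + ∑ b, cop.N b) := by
      rw [Fintype.sum_sum_type, Fintype.sum_prod_type]
      simp only [Fintype.sum_sum_type]
      show ∑ _t : T, (∑ _i : Fin h, 1 + ∑ b, cop.N b) + ∑ _q : Fin j, 0 = _
      simp
    have hL : ∑ c, (dat cop T j).L c = Fintype.card T * (h + ∑ b, (cop.N b - 1)) := by
      rw [Fintype.sum_sum_type, Fintype.sum_prod_type]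
      simp only [Fintype.sum_sum_type]
      show ∑ _t : T, (∑ _i : Fin h, 1 + ∑ b, (cop.N b - 1)) + ∑ _q : Fin j, 0 = _
      simp
    have hS : ∑ b, cop.N b = ∑ b, (cop.N b - 1) + Fintype.card (Bt s0) := by
      have h1 : ∀ b, cop.N b = (cop.N b - 1) + 1 := fun b => (Nat.sub_add_cancel (cop.hN b)).symm
      calc ∑ b, cop.N b = ∑ b, ((cop.N b - 1) + 1) := Finset.sum_congr rfl fun b _ => h1 b
        _ = _ := by
          rw [Finset.sum_add_distrib, Finset.sum_const, Finset.card_univ, smul_eq_mul, mul_one]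
    have hB : Fintype.card (Bt s0) + s0.card = h := by
      have h1 : Fintype.card (Bt s0) = Fintype.card (Fin h) - s0.card := by
        rw [Fintype.card_subtype_compl]
        simp
      have h2 := Finset.card_le_univ s0
      rw [Fintype.card_fin] at h1 h2
      omega
    rw [hM, hL, Finset.card_product, Finset.card_univ, Fintype.card_prod, Fintype.card_fin, hS,
      ← mul_add, ← mul_add]
    congr 1
    omega

theorem card_gates : Fintype.card (Gi (dat cop T j)) =
    Fintype.card T * (h + Fintype.card (Bt s0) + (h + ∑ b, cop.N b)) + j := by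
  have hM : ∑ c, (dat cop T j).M c = Fintype.card T * (h + ∑ b, cop.N b) := by
    rw [Fintype.sum_sum_type, Fintype.sum_prod_type]
    simp only [Fintype.sum_sum_type]
    show ∑ _t : T, (∑ _i : Fin h, 1 + ∑ b, cop.N b) + ∑ _q : Fin j, 0 = _
    simp
  rw [card_Gi, hM, Fintype.card_sum, Fintype.card_prod, Fintype.card_sum, Fintype.card_fin,
    Fintype.card_fin]
  ring

/-- the coefficients -/
noncomputable def coef : Unit ⊕ (Σ b : Bt s0, Fin (cop.N b)) → ℂ
  | Sum.inl _ => 1
  | Sum.inr ⟨b, l⟩ => cop.a b l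

theorem coef_ne (x : Unit ⊕ (Σ b : Bt s0, Fin (cop.N b))) : coef cop x ≠ 0 := by
  rcases x with u | ⟨b, l⟩
  · exact one_ne_zero
  · exact cop.ha b l

theorem exists_coef (c : Chn s0 T j) (l : Fin ((dat cop T j).M c)) :
    ∃ x, (dat cop T j).a c l = coef cop x := by
  rcases c with ⟨t, i | b⟩ | q
  · exact ⟨Sum.inl (), rfl⟩
  · exact ⟨Sum.inr ⟨b, l⟩, rfl⟩
  · exact l.elim0

theorem card_coef : Fintype.card (Unit ⊕ (Σ b : Bt s0, Fin (cop.N b))) = 1 + ∑ b, cop.N b := by
  rw [Fintype.card_sum, Fintype.card_unit, Fintype.card_sigma]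
  simp only [Fintype.card_fin]

end

end

end Pool.Agent.T6.H15.LN
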