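import Pool.Agent.T6.H15.LN.Main
import Pool.Agent.T6.H15.ZP.Check

/-!
# Zilber's conjecture and the powers of one line: the theorem
-/

set_option autoImplicit false

open MvPolynomial

namespace Pool.Agent.T6.H15.LN

open Pool.Agent.T6.H15.ZP Pool.Agent.T6.H15.MZ Pool.Agent.T6.H15.UE Pool.Agent.T6.H15.HY

/-- The `κ`-th power of the line `{(a_1 x + b_1, …, a_m x + b_m) | x ∈ ℂ}` of `(ℂ^×)^m`. -/
def lines {σ : Type} (a b : σ → ℂ) (κ : Type) : Set (κ × σ → ℂ) :=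
  {z | (∀ p, z p ≠ 0) ∧ ∀ k, ∃ x, ∀ i, z (k, i) = a i * x + b i}

theorem lines_eq {σ : Type} {a b : σ → ℂ} (ha : ∀ i, a i ≠ 0) (κ : Type) :
    lines a b κ = lin a (fun i => b i / a i) κ := by
  have h1 : ∀ i x, a i * x + b i = a i * (x + b i / a i) := by
    intro i x
    have := ha i
    field_simp
  unfold lines lin
  simp only [h1]

/-- **Main theorem.** -/
theorem main' {m : ℕ} (hm : 2 ≤ m) {a b : Fin m → ℂ} (ha : ∀ i, a i ≠ 0)
    (hab : ∀ i j, i ≠ j → a i * b j ≠ a j * b i) : List.TFAE [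
    ∀ n, Zilber n,
    ∀ K : ℕ, FinMax (lines a b (Fin K)),
    ∀ N : ℕ, ∃ K, N ≤ K ∧ FinMax (lines a b (Fin K)),
    ∀ ε : ℝ, 0 < ε → ∀ N : ℕ, ∃ K, N ≤ K ∧ PtFin (lines a b (Fin K)) ((1 + ε) * K)] := by
  have h1 : ∀ κ, lines a b κ = lin a (fun i => b i / a i) κ := lines_eq ha
  simp only [h1]
  apply main ha
  · intro i j hij
    by_contra hne
    apply hab i j hne
    dsimp only at hij
    rw [div_eq_div_iff (ha i) (ha j)] at hij
    linear_combination -hij
  · rw [Fintype.card_fin]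
    exact hm

end Pool.Agent.T6.H15.LN
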