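import Pool.Agent.T6.H15.LN.Sys

/-!
# The monomials which recover the sums
-/

set_option autoImplicit false

open MvPolynomial

namespace Pool.Agent.T6.H15.LN

open Pool.Agent.T6.H15.ZP Pool.Agent.T6.H15.MZ Pool.Agent.T6.H15.UE Pool.Agent.T6.H15.HY

section

variable {σ : Type} [Fintype σ] [DecidableEq σ] {ι Ch : Type} [Fintype ι] [Fintype Ch]

/-- the normalized coordinates -/
noncomputable def Fc (H : Ln σ) (E : Dat ι Ch) (g : Gi E) (i : σ) (y : Gi E × σ → ℂ) : ℂ :=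
  (H.la i)⁻¹ * y (g, i)

/-- quotients of successive sums -/
noncomputable def rv (H : Ln σ) (E : Dat ι Ch) (c : Ch) (l : ℕ) (y : Gi E × σ → ℂ) : ℂ :=
  if h : l < E.M c then Fc H E (Sum.inr ⟨c, ⟨l, h⟩⟩) H.i1 y *
    (Fc H E (Sum.inr ⟨c, ⟨l, h⟩⟩) H.i0 y)⁻¹ else 1

/-- the sums -/
noncomputable def Pm (H : Ln σ) (E : Dat ι Ch) (c : Ch) (l : ℕ) (y : Gi E × σ → ℂ) : ℂ :=
  Fc H E (Sum.inl c) H.i0 y * ∏ j ∈ Finset.range l, rv H E c j y

/-- the functions at the gates -/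
noncomputable def Nf (H : Ln σ) (E : Dat ι Ch) : Gi E → σ → (Gi E × σ → ℂ) → ℂ
  | Sum.inl c, i => Fc H E (Sum.inl c) i
  | Sum.inr ⟨c, l⟩, i => fun y => Fc H E (Sum.inr ⟨c, l⟩) i y *
      (Fc H E (Sum.inr ⟨c, l⟩) H.i0 y)⁻¹ * Pm H E c l y

/-- the terms at the gates -/
noncomputable def Tf (H : Ln σ) (E : Dat ι Ch) : Gi E → (Gi E × σ → ℂ) → ℂ
  | Sum.inl _ => fun _ => H.de
  | Sum.inr ⟨c, l⟩ => fun y => H.de * (Fc H E (Sum.inr ⟨c, l⟩) H.i0 y)⁻¹ * Pm H E c l y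

/-- the coordinates -/
noncomputable def Xm (H : Ln σ) (E : Dat ι Ch) (i : ι) (y : Gi E × σ → ℂ) : ℂ :=
  if h : 0 < E.M (E.vis i) then Tf H E (Sum.inr ⟨E.vis i, ⟨0, h⟩⟩) y else 1

variable (H : Ln σ) (E : Dat ι Ch)

theorem isMon_Fc (g : Gi E) (i : σ) : IsMonC (Fc H E g i) :=
  (IsMonC.const (inv_ne_zero (H.hla i))).mul (IsMonC.coord _)

theorem isMon_rv (c : Ch) (l : ℕ) : IsMonC (rv H E c l) := by
  unfold rv
  by_cases h : l < E.M c
  · simp only [h, dif_pos]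
    exact (isMon_Fc H E _ _).mul (isMon_Fc H E _ _).inv
  · simp only [h, dif_neg, not_false_eq_true]
    exact IsMonC.const one_ne_zero

theorem isMon_Pm (c : Ch) (l : ℕ) : IsMonC (Pm H E c l) :=
  (isMon_Fc H E _ _).mul (IsMonC.prod _ fun j _ => isMon_rv H E c j)

theorem isMon_Nf (g : Gi E) (i : σ) : IsMonC (Nf H E g i) := by
  rcases g with c | ⟨c, l⟩
  · exact isMon_Fc H E _ _
  · exact ((isMon_Fc H E _ _).mul (isMon_Fc H E _ _).inv).mul (isMon_Pm H E c l)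

theorem isMon_Tf (g : Gi E) : IsMonC (Tf H E g) := by
  rcases g with c | ⟨c, l⟩
  · exact IsMonC.const H.hde
  · exact ((IsMonC.const H.hde).mul (isMon_Fc H E _ _).inv).mul (isMon_Pm H E c l)

theorem isMon_Xm (i : ι) : IsMonC (Xm H E i) := by
  unfold Xm
  by_cases h : 0 < E.M (E.vis i)
  · simp only [h, dif_pos]
    exact isMon_Tf H E _
  · simp only [h, dif_neg, not_false_eq_true]
    exact IsMonC.const one_ne_zero

variable {H E}

theorem Fc_ne {y : Gi E × σ → ℂ} (hy : ∀ p, y p ≠ 0) (g : Gi E) (i : σ) : Fc H E g i y ≠ 0 :=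
  (isMon_Fc H E g i).ne_zero hy

theorem Pm_zero (c : Ch) (y : Gi E × σ → ℂ) : Pm H E c 0 y = Fc H E (Sum.inl c) H.i0 y := by
  unfold Pm
  rw [Finset.prod_range_zero, mul_one]

theorem Pm_succ (y : Gi E × σ → ℂ) (c : Ch) (l : Fin (E.M c)) :
    Pm H E c (l + 1) y = Nf H E (Sum.inr ⟨c, l⟩) H.i1 y := by
  unfold Pm Nf
  rw [Finset.prod_range_succ, ← mul_assoc, mul_comm]
  unfold rv Pm
  rw [dif_pos l.2]
  rfl

theorem Nf_zero {y : Gi E × σ → ℂ} (hy : ∀ p, y p ≠ 0) (c : Ch) (l : Fin (E.M c)) :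
    Nf H E (Sum.inr ⟨c, l⟩) H.i0 y = Pm H E c l y := by
  unfold Nf
  dsimp only
  rw [mul_inv_cancel₀ (Fc_ne hy _ _), one_mul]

/-- The relation at the gates of the powers of the line. -/
theorem Nf_add {y : Gi E × σ → ℂ} (hy : y ∈ lin H.la H.cc (Gi E)) (g : Gi E) (i : σ) :
    Nf H E g i y = Nf H E g H.i0 y + H.ga i * Tf H E g y := by
  obtain ⟨x, hx⟩ := hy.2 g
  have h1 : ∀ i, Fc H E g i y = x + H.de * H.ga i := by
    intro i
    unfold Fc
    rw [hx i, inv_mul_cancel_left₀ (H.hla i)]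
    rfl
  have h2 : Fc H E g H.i0 y = x := by rw [h1, H.h0, mul_zero, add_zero]
  have h3 := Fc_ne (H := H) hy.1 g H.i0
  rcases g with c | ⟨c, l⟩
  · unfold Nf Tf
    dsimp only
    rw [h1 i, h2]
    ring
  · rw [Nf_zero hy.1]
    unfold Nf Tf
    dsimp only
    rw [h2] at h3 ⊢
    rw [h1 i]
    field_simp

variable {W : Set (ι → ℂ)} {s : Finset ι}

section Image

variable {z : ι ⊕ Ch → ℂ}

theorem eval_nu_i0 (c : Ch) (l : Fin (E.M c)) : eval z (nu H E (Sum.inr ⟨c, l⟩) H.i0) =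
    z (Sum.inr c) + eval (fun i => z (Sum.inl i)) (E.ps c l) := by
  rw [eval_nu', H.h0, zero_mul, add_zero]
  rfl

theorem eval_nu_i1 (c : Ch) (l : Fin (E.M c)) : eval z (nu H E (Sum.inr ⟨c, l⟩) H.i1) =
    z (Sum.inr c) + eval (fun i => z (Sum.inl i)) (E.ps c (l + 1)) := by
  rw [eval_nu', H.h1, one_mul, ps_succ, map_add]
  rfl

theorem Fc_phi (g : Gi E) (i : σ) : Fc H E g i (phi H E z) = H.de *
    (eval z (nu H E g i) / eval (fun i => z (Sum.inl i)) (tg H E g)) := by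
  unfold Fc
  rw [phi_eq, mul_assoc, inv_mul_cancel_left₀ (H.hla i)]

theorem Fc_inl (c : Ch) (i : σ) : Fc H E (Sum.inl c) i (phi H E z) =
    eval z (nu H E (Sum.inl c) i) := by
  rw [Fc_phi, tg, eval_C, mul_div_cancel₀ _ H.hde]

theorem Pm_phi (h : Sys H E W s) (hw : (fun i => z (Sum.inl i)) ∈ W)
    (hg : eval z (good H E) ≠ 0) (c : Ch) (l : ℕ) (hl : l ≤ E.M c) :
    Pm H E c l (phi H E z) = z (Sum.inr c) + eval (fun i => z (Sum.inl i)) (E.ps c l) := by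
  induction l with
  | zero =>
    rw [Pm_zero, Fc_inl, eval_nu', H.h0, zero_mul, add_zero, ps_zero]
    rfl
  | succ l ih =>
    have h1 := ih (by omega)
    unfold Pm at h1 ⊢
    rw [Finset.prod_range_succ, ← mul_assoc, h1]
    unfold rv
    rw [dif_pos (show l < E.M c from hl), Fc_phi, Fc_phi, eval_nu_i0, eval_nu_i1]
    have h2 := good_iff.1 hg (Sum.inr ⟨c, ⟨l, hl⟩⟩) H.i0
    rw [eval_nu_i0] at h2
    have h3 := tg_ne (H := H) h.ha (h.tor _ hw) (Sum.inr ⟨c, ⟨l, hl⟩⟩)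
    have h4 := H.hde
    dsimp only at h2 ⊢
    field_simp

theorem Nf_phi (h : Sys H E W s) (hw : (fun i => z (Sum.inl i)) ∈ W)
    (hg : eval z (good H E) ≠ 0) (g : Gi E) (i : σ) :
    Nf H E g i (phi H E z) = eval z (nu H E g i) := by
  rcases g with c | ⟨c, l⟩
  · exact Fc_inl c i
  · unfold Nf
    dsimp only
    rw [Pm_phi h hw hg c l l.2.le, Fc_phi, Fc_phi, eval_nu_i0]
    have h2 := good_iff.1 hg (Sum.inr ⟨c, l⟩) H.i0
    rw [eval_nu_i0] at h2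
    have h3 := tg_ne (H := H) h.ha (h.tor _ hw) (Sum.inr ⟨c, l⟩)
    have h4 := H.hde
    field_simp

theorem Tf_phi (h : Sys H E W s) (hw : (fun i => z (Sum.inl i)) ∈ W)
    (hg : eval z (good H E) ≠ 0) (g : Gi E) :
    Tf H E g (phi H E z) = eval (fun i => z (Sum.inl i)) (tg H E g) := by
  rcases g with c | ⟨c, l⟩
  · unfold Tf tg
    rw [eval_C]
  · unfold Tf
    dsimp only
    rw [Pm_phi h hw hg c l l.2.le, Fc_phi, eval_nu_i0]
    have h2 := good_iff.1 hg (Sum.inr ⟨c, l⟩) H.i0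
    rw [eval_nu_i0] at h2
    have h3 := tg_ne (H := H) h.ha (h.tor _ hw) (Sum.inr ⟨c, l⟩)
    have h4 := H.hde
    field_simp

theorem Xm_phi (h : Sys H E W s) (hw : (fun i => z (Sum.inl i)) ∈ W)
    (hg : eval z (good H E) ≠ 0) (i : ι) :
    Xm H E i (phi H E z) = z (Sum.inl i) := by
  unfold Xm
  rw [dif_pos (h.vM i), Tf_phi h hw hg, tg]
  dsimp only
  rw [h.vm, h.va, ← MvPolynomial.X, eval_X]

end Image

end

end Pool.Agent.T6.H15.LN
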