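import Pool.Agent.T6.H15.LN.Data

/-!
# The powers of the line: irreducibility and dimension
-/

set_option autoImplicit false

open MvPolynomial

namespace Pool.Agent.T6.H15.LN

open Pool.Agent.T6.H15.ZP Pool.Agent.T6.H15.MZ Pool.Agent.T6.H15.UE Pool.Agent.T6.H15.HY

section

variable {σ : Type} [Fintype σ] [DecidableEq σ] {la c : σ → ℂ} {κ : Type} [Fintype κ]

/-- the parametrization -/
noncomputable def par (la c : σ → ℂ) (i0 : σ) (p : κ × σ) : MvPolynomial κ ℂ :=
  C (la p.2) * (C (la i0)⁻¹ * X p.1 - C (c i0) + C (c p.2))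

theorem eval_par (i0 : σ) (y : κ → ℂ) (k : κ) (i : σ) : eval y (par la c i0 (k, i)) =
    la i * ((la i0)⁻¹ * y k - c i0 + c i) := by
  unfold par
  simp only [map_mul, eval_C, map_sub, map_add, eval_X]

theorem eval_par0 (hla : ∀ i, la i ≠ 0) (i0 : σ) (y : κ → ℂ) (k : κ) :
    eval y (par la c i0 (k, i0)) = y k := by
  rw [eval_par, sub_add_cancel, mul_inv_cancel_left₀ (hla i0)]

theorem eq_par (hla : ∀ i, la i ≠ 0) (i0 : σ) {z : κ × σ → ℂ} (hz : z ∈ lin la c κ)
    (p : κ × σ) : z p = eval (fun k => z (k, i0)) (par la c i0 p) := by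
  obtain ⟨k, i⟩ := p
  obtain ⟨x, hx⟩ := hz.2 k
  rw [eval_par, hx i, hx i0, inv_mul_cancel_left₀ (hla i0)]
  ring

/-- the product of the coordinates -/
noncomputable def parD (la c : σ → ℂ) (κ : Type) [Fintype κ] (i0 : σ) :
    MvPolynomial κ ℂ := ∏ p : κ × σ, par la c i0 p

theorem parD_not_mem (hla : ∀ i, la i ≠ 0) (i0 : σ) :
    parD la c κ i0 ∉ idealOf (Set.univ : Set (κ → ℂ)) := by
  have hp : (idealOf (Set.univ : Set (κ → ℂ))).IsPrime := isVar_univ.irred
  unfold parD
  rw [hp.prod_mem_iff]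
  rintro ⟨⟨k, i⟩, -, h1⟩
  rw [mem_idealOf] at h1
  have h2 := h1 (fun _ => la i0 * (1 + c i0 - c i)) (Set.mem_univ _)
  rw [eval_par, inv_mul_cancel_left₀ (hla i0)] at h2
  have h3 : la i * (1 + c i0 - c i - c i0 + c i) = la i := by ring
  rw [h3] at h2
  exact hla i h2

theorem lin_eq (hla : ∀ i, la i ≠ 0) (i0 : σ) : lin la c κ =
    (fun (x : κ → ℂ) p => eval x (par la c i0 p)) ''
      {x | x ∈ (Set.univ : Set (κ → ℂ)) ∧ eval x (parD la c κ i0) ≠ 0} := by
  ext z
  constructor
  · intro hz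
    refine ⟨fun k => z (k, i0), ⟨Set.mem_univ _, ?_⟩, ?_⟩
    · unfold parD
      rw [map_prod, Finset.prod_ne_zero_iff]
      intro p _
      rw [← eq_par hla i0 hz]
      exact hz.1 p
    · funext p
      exact (eq_par hla i0 hz p).symm
  · rintro ⟨x, ⟨-, hx⟩, rfl⟩
    unfold parD at hx
    rw [map_prod, Finset.prod_ne_zero_iff] at hx
    exact ⟨fun p => hx p (Finset.mem_univ p), fun k => ⟨(la i0)⁻¹ * x k - c i0, fun i =>
      eval_par i0 x k i⟩⟩

theorem irred_lin (hla : ∀ i, la i ≠ 0) (i0 : σ) : Irred (lin la c κ) := by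
  rw [lin_eq hla i0]
  have h := irred_rat isVar_univ.irred (par (κ := κ) la c i0)
    (fun _ => (1 : MvPolynomial κ ℂ)) (parD_not_mem (c := c) hla i0)
    (fun x _ _ i => by rw [map_one]; exact one_ne_zero)
  simp only [map_one, div_one] at h
  exact h

theorem dim_lin (hla : ∀ i, la i ≠ 0) (i0 : σ) :
    dim (lin la c κ) = Fintype.card κ := by
  have h1 : img (fun k : κ => (k, i0)) (lin la c κ) =
      {x | x ∈ (Set.univ : Set (κ → ℂ)) ∧ eval x (parD la c κ i0) ≠ 0} := by
    rw [lin_eq hla i0]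
    ext x
    constructor
    · rintro ⟨_, ⟨y, hy, rfl⟩, rfl⟩
      have h2 : (fun k : κ => eval y (par la c i0 (k, i0))) = y := by
        funext k
        rw [eval_par0 hla]
      dsimp only
      rw [h2]
      exact hy
    · intro hx
      refine ⟨_, ⟨x, hx, rfl⟩, ?_⟩
      funext k
      dsimp only
      rw [eval_par0 hla]
  have h2 : dim (img (fun k : κ => (k, i0)) (lin la c κ)) = Fintype.card κ := by
    rw [h1]
    unfold dim
    rw [idealOf_open isVar_univ.irred (parD_not_mem hla i0)]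
    exact dim_univ
  apply le_antisymm
  · have h := MS.dim_le_img (irred_lin (κ := κ) hla i0) (par la c i0)
      (fun k : κ => (k, i0)) fun x hx z => eq_par hla i0 hx z
    rwa [h2] at h
  · rw [← h2]
    exact dim_img_le (irred_lin hla i0)

/-- The powers of the line are closed in the torus. -/
theorem closed_lin (hla : ∀ i, la i ≠ 0) (i0 : σ) : ClosedT (lin la c κ) := by
  intro x hx hcl
  have h1 : InTorus {x} := by
    rintro y rfl
    exact hx
  refine lin_closure (Y := lin la c κ) (Y' := {x}) hla i0 subset_rfl h1 ?_ rfl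
  intro p hp
  rw [mem_idealOf]
  rintro y rfl
  exact hcl p hp

end

end Pool.Agent.T6.H15.LN
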