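import Pool.Agent.T6.H15.LN.Fun

/-!
# The rank of the group of the constant characters of the image
-/

set_option autoImplicit false

open MvPolynomial

namespace Pool.Agent.T6.H15.LN

open Pool.Agent.T6.H15.ZP Pool.Agent.T6.H15.MZ Pool.Agent.T6.H15.UE Pool.Agent.T6.H15.HY

section

variable {σ : Type} [Fintype σ] [DecidableEq σ] {ι Ch : Type} [Fintype ι] [Fintype Ch]
  {H : Ln σ} {E : Dat ι Ch} {W : Set (ι → ℂ)} {s : Finset ι}

/-- the indices of the independent monomials -/
abbrev Nm (H : Ln σ) (E : Dat ι Ch) : Type := ι ⊕ (Σ c : Ch, Rx H E c)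

/-- the independent monomials -/
noncomputable def nm (H : Ln σ) (E : Dat ι Ch) : Nm H E → (Gi E × σ → ℂ) → ℂ
  | Sum.inl i => Xm H E i
  | Sum.inr ⟨c, p⟩ => Nf H E (ix H E c p).1 (ix H E c p).2

theorem isMon_nm (j : Nm H E) : IsMonC (nm H E j) := by
  rcases j with i | ⟨c, p⟩
  · exact isMon_Xm H E i
  · exact isMon_Nf H E _ _

/-- the factors of a chain -/
noncomputable def Gf (H : Ln σ) (E : Dat ι Ch) (e : Nm H E → ℤ) (z : ι ⊕ Ch → ℂ) (c : Ch) : ℂ :=
  ∏ p : Rx H E c, eval z (nu H E (ix H E c p).1 (ix H E c p).2) ^ e (Sum.inr ⟨c, p⟩)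

theorem prod_nm (h : Sys H E W s) {z : ι ⊕ Ch → ℂ} (hw : (fun i => z (Sum.inl i)) ∈ W)
    (hg : eval z (good H E) ≠ 0)
    (e : Nm H E → ℤ) : ∏ j, nm H E j (phi H E z) ^ e j =
      (∏ i, z (Sum.inl i) ^ e (Sum.inl i)) * ∏ c, Gf H E e z c := by
  rw [Fintype.prod_sum_type]
  congr 1
  · refine Finset.prod_congr rfl fun i _ => ?_
    rw [nm, Xm_phi h hw hg]
  · unfold Gf
    rw [Fintype.prod_sigma]
    refine Finset.prod_congr rfl fun c _ => Finset.prod_congr rfl fun p _ => ?_
    rw [nm, Nf_phi h hw hg]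

theorem Gf_ne {z : ι ⊕ Ch → ℂ} (hg : eval z (good H E) ≠ 0)
    (e : Nm H E → ℤ) (c : Ch) : Gf H E e z c ≠ 0 :=
  Finset.prod_ne_zero_iff.2 fun p _ => zpow_ne_zero _ (good_iff.1 hg _ _)

/-- a point in general position for a chain -/
theorem exists_generic_pt (h : Sys H E W s) (c : Ch) : ∃ w ∈ W,
    Function.Injective fun p : Rx H E c => eval w (rg H E (ix H E c p).1 (ix H E c p).2) := by
  classical
  have hWp : (idealOf W).IsPrime := h.irr
  set R : MvPolynomial ι ℂ := ∏ p ∈ (Finset.univ : Finset (Rx H E c × Rx H E c)).filter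
    fun p => p.1 ≠ p.2, (rg H E (ix H E c p.1).1 (ix H E c p.1).2 -
      rg H E (ix H E c p.2).1 (ix H E c p.2).2) with hR
  have hRW : R ∉ idealOf W := by
    intro h1
    rw [hWp.prod_mem_iff] at h1
    obtain ⟨p, hp, h2⟩ := h1
    exact h.hdist c p.1 p.2 (Finset.mem_filter.1 hp).2 h2
  obtain ⟨w, hw, h1⟩ := exists_of_not_mem hRW
  rw [hR, map_prod] at h1
  refine ⟨w, hw, fun p q heq => ?_⟩
  by_contra hne
  have h2 := Finset.prod_ne_zero_iff.1 h1 (p, q) (Finset.mem_filter.2 ⟨Finset.mem_univ _, hne⟩)
  apply h2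
  rw [map_sub]
  exact sub_eq_zero.2 heq

/-- **The monomials are independent modulo constants.** -/
theorem indep_nm (h : Sys H E W s) (e : Nm H E → ℤ) {K0 : ℂ}
    (hconst : ∀ y ∈ image H E W, ∏ j, nm H E j y ^ e j = K0) : e = 0 := by
  classical
  have hval : ∀ w ∈ W, ∀ x : Ch → ℂ, eval (Sum.elim w x) (good H E) ≠ 0 →
      (∏ i, w i ^ e (Sum.inl i)) * ∏ c, Gf H E e (Sum.elim w x) c = K0 := by
    intro w hw x hx
    rw [← hconst _ ⟨Sum.elim w x, ⟨elim_mem hw (Set.mem_univ x), hx⟩, rfl⟩,
      prod_nm h (z := Sum.elim w x) hw hx]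
    rfl
  have hchain : ∀ c (p : Rx H E c), e (Sum.inr ⟨c, p⟩) = 0 := by
    intro c
    obtain ⟨w, hw, hinj⟩ := exists_generic_pt h c
    obtain ⟨x0, hx0⟩ := exists_good' H E w
    -- the roots
    set r : Rx H E c → ℂ := fun p => -eval w (rg H E (ix H E c p).1 (ix H E c p).2) with hr
    have hrinj : Function.Injective r := fun p q hpq => hinj (neg_injective hpq)
    set F : Set ℂ := Set.range fun p : Gi E × σ => -eval w (rg H E p.1 p.2) with hF
    have hFfin : F.Finite := Set.finite_range _
    have hgx : ∀ x ∉ F, eval (Sum.elim w (Function.update x0 c x)) (good H E) ≠ 0 := by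
      intro x hx
      rw [good_iff]
      intro g i
      rw [eval_nu]
      show Function.update x0 c x (chn g) + eval w (rg H E g i) ≠ 0
      by_cases hc : chn g = c
      · rw [hc, Function.update_self]
        intro h1
        exact hx ⟨(g, i), by linear_combination -h1⟩
      · rw [Function.update_of_ne hc]
        have h2 := good_iff.1 hx0 g i
        rw [eval_nu] at h2
        exact h2
    set A : ℂ := (∏ i, w i ^ e (Sum.inl i)) *
      ∏ c' ∈ Finset.univ.erase c, Gf H E e (Sum.elim w x0) c' with hA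
    have hA0 : A ≠ 0 := mul_ne_zero (Finset.prod_ne_zero_iff.2 fun i _ =>
      zpow_ne_zero _ (h.tor w hw i)) (Finset.prod_ne_zero_iff.2 fun c' _ => Gf_ne hx0 e c')
    have hsplit : ∀ x ∉ F, A * Gf H E e (Sum.elim w (Function.update x0 c x)) c = K0 := by
      intro x hx
      have h1 := hval w hw _ (hgx x hx)
      rw [← Finset.mul_prod_erase Finset.univ _ (Finset.mem_univ c)] at h1
      rw [← h1, hA, mul_assoc]
      congr 1
      rw [mul_comm]
      congr 1
      refine Finset.prod_congr rfl fun c' hc' => ?_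
      have hne := (Finset.mem_erase.1 hc').1
      unfold Gf
      refine Finset.prod_congr rfl fun p _ => ?_
      rw [eval_nu, eval_nu, chn_ix]
      simp only [Sum.elim_inr, Function.update_of_ne hne]
      rfl
    have hexp := exp_zero hrinj (fun p => e (Sum.inr ⟨c, p⟩)) hFfin (c := A⁻¹ * K0)
      (by
        intro x hx
        constructor
        · rintro p hxp
          exact hx ⟨ix H E c p, hxp.symm⟩
        · rw [← hsplit x hx, inv_mul_cancel_left₀ hA0]
          unfold Gf
          refine Finset.prod_congr rfl fun p _ => ?_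
          rw [eval_nu, chn_ix]
          congr 1
          show x - -eval w _ = Function.update x0 c x c + eval w _
          rw [Function.update_self, sub_neg_eq_add])
    exact fun p => congrFun hexp p
  have hG : ∀ z c, Gf H E e z c = 1 := by
    intro z c
    unfold Gf
    exact Finset.prod_eq_one fun p _ => by rw [hchain c p, zpow_zero]
  have h1 : (fun i => e (Sum.inl i)) = 0 := by
    apply h.ncon _ K0
    intro w hw
    obtain ⟨x, hx⟩ := exists_good' H E w
    have h2 := hval w hw x hx
    simp only [hG, Finset.prod_const_one, mul_one] at h2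
    exact h2
  funext j
  rcases j with i | ⟨c, p⟩
  · exact congrFun h1 i
  · exact hchain c p

/-- The rank of the group of the constant characters. -/
theorem rank_const (h : Sys H E W s) :
    Module.finrank ℤ (constLat (image H E W) (image_torus h)) + Fintype.card (Nm H E) ≤
      Fintype.card (Gi E × σ) := by
  classical
  have hm := fun j : Nm H E => isMon_nm (H := H) j
  choose k b hk hb using hm
  let lin : (Nm H E → ℤ) →ₗ[ℤ] (Gi E × σ → ℤ) := Fintype.linearCombination ℤ b
  have hlin : ∀ e, lin e = ∑ j, e j • b j := fun e => Fintype.linearCombination_apply _ _ _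
  let φ : (constLat (image H E W) (image_torus h) × (Nm H E → ℤ)) →ₗ[ℤ] (Gi E × σ → ℤ) :=
    (constLat (image H E W) (image_torus h)).subtype.coprod lin
  have hφ : ∀ p, φ p = (p.1 : Gi E × σ → ℤ) + lin p.2 := by
    intro p
    show (constLat (image H E W) (image_torus h)).subtype.coprod lin p = _
    rw [LinearMap.coprod_apply]
    rfl
  have hinj : Function.Injective φ := by
    rw [← LinearMap.ker_eq_bot, Submodule.eq_bot_iff]
    intro p hp
    rw [LinearMap.mem_ker, hφ] at hp
    have h1 : lin p.2 ∈ constLat (image H E W) (image_torus h) := by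
      have h2 : lin p.2 = -(p.1 : Gi E × σ → ℤ) := by
        rw [eq_neg_iff_add_eq_zero, add_comm]
        exact hp
      rw [h2]
      exact Submodule.neg_mem _ p.1.2
    obtain ⟨c, hc⟩ := h1
    have h3 : p.2 = 0 := by
      apply indep_nm h p.2 (K0 := (∏ j, k j ^ p.2 j) * c)
      intro y hy
      have hy0 := image_torus h y hy
      rw [← hc y hy, hlin, chr_sum hy0, ← Finset.prod_mul_distrib]
      refine Finset.prod_congr rfl fun j _ => ?_
      rw [hb j y hy0, mul_zpow, chr_zsmul]
    have h5 : p.1 = 0 := by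
      apply Subtype.ext
      rw [h3, map_zero, add_zero] at hp
      exact hp
    exact Prod.ext h5 h3
  have h1 := LinearMap.finrank_le_finrank_of_injective hinj
  rwa [Module.finrank_prod, Module.finrank_fintype_fun_eq_card,
    Module.finrank_fintype_fun_eq_card] at h1

theorem card_Oth : Fintype.card (Oth H) + 2 = Fintype.card σ := by
  classical
  have h1 : Fintype.card (Oth H) = ((Finset.univ.erase H.i0).erase H.i1).card := by
    rw [Fintype.card_subtype]
    congr 1
    ext i
    simp [and_comm]
  have h2 : ((Finset.univ.erase H.i0).erase H.i1).card + 1 = (Finset.univ.erase H.i0).card :=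
    Finset.card_erase_add_one (Finset.mem_erase.2 ⟨H.ne.symm, Finset.mem_univ _⟩)
  have h3 : (Finset.univ.erase H.i0).card + 1 = Fintype.card σ :=
    Finset.card_erase_add_one (Finset.mem_univ _)
  omega

theorem card_Nm : Fintype.card (Nm H E) + 2 * ∑ c, E.M c = Fintype.card ι +
    Fintype.card Ch * Fintype.card σ + (∑ c, E.M c) * Fintype.card σ + ∑ c, E.L c := by
  have h0 := card_Oth (H := H)
  have h1 : ∀ c, Fintype.card (Rx H E c) + 2 * E.M c =
      Fintype.card σ + E.M c * Fintype.card σ + E.L c := by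
    intro c
    rw [Fintype.card_sum, Fintype.card_sum, Fintype.card_prod, Fintype.card_fin, Fintype.card_fin,
      ← h0]
    ring
  have h2 : ∑ c, (Fintype.card (Rx H E c) + 2 * E.M c) =
      ∑ c, (Fintype.card σ + E.M c * Fintype.card σ + E.L c) :=
    Finset.sum_congr rfl fun c _ => h1 c
  rw [Finset.sum_add_distrib, Finset.sum_add_distrib, Finset.sum_add_distrib, Finset.sum_const,
    Finset.card_univ, smul_eq_mul, ← Finset.mul_sum, ← Finset.sum_mul] at h2
  rw [Fintype.card_sum, Fintype.card_sigma]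
  omega

theorem card_Gi : Fintype.card (Gi E) = Fintype.card Ch + ∑ c, E.M c := by
  rw [Fintype.card_sum, Fintype.card_sigma]
  simp only [Fintype.card_fin]

end

end Pool.Agent.T6.H15.LN
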