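import Pool.Agent.T6.H15.LN.Hyp

/-!
# The reduction to the powers of one line
-/

set_option autoImplicit false

open MvPolynomial

namespace Pool.Agent.T6.H15.LN

open Pool.Agent.T6.H15.ZP Pool.Agent.T6.H15.MZ Pool.Agent.T6.H15.UE Pool.Agent.T6.H15.HY

/-- The points of `V` with at least `r` independent relations are contained in finitely many atypical
subvarieties of `V`. -/
def PtFin {ι : Type} [Fintype ι] (V : Set (ι → ℂ)) (r : ℝ) : Prop :=
  ∃ 𝒴 : Set (Set (ι → ℂ)), 𝒴.Finite ∧ (∀ Y ∈ 𝒴, Atyp V Y) ∧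
    ∀ z ∈ V, r ≤ (Module.finrank ℤ (lat {z}) : ℝ) → ∃ Y ∈ 𝒴, z ∈ Y

section

variable {σ : Type} [Fintype σ] [DecidableEq σ]

theorem lin_comp {la c : σ → ℂ} {κ κ' : Type} {z : κ × σ → ℂ} (hz : z ∈ lin la c κ) (e : κ' → κ) :
    (fun x : κ' × σ => z (e x.1, x.2)) ∈ lin la c κ' :=
  ⟨fun _ => hz.1 _, fun i => hz.2 (e i)⟩

theorem PtFin.equiv {la c : σ → ℂ} (hla : ∀ i, la i ≠ 0) (i0 : σ) {κ κ' : Type} [Fintype κ]
    [Fintype κ'] (e : κ' ≃ κ) {r : ℝ} (h : PtFin (lin la c κ) r) : PtFin (lin la c κ') r := by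
  obtain ⟨𝒴, hfin, hY, hcov⟩ := h
  let E : κ' × σ ≃ κ × σ := Equiv.prodCongr e (Equiv.refl _)
  refine ⟨(fun Y => img E Y) '' 𝒴, hfin.image _, ?_, ?_⟩
  · rintro _ ⟨Y, hY', rfl⟩
    obtain ⟨h1, h2, h3⟩ := hY Y hY'
    refine ⟨irred_img h1, ?_, ?_⟩
    · rintro _ ⟨y, hy, rfl⟩
      exact lin_comp (h2 hy) e
    · dsimp only
      rw [finrank_lat_img, dim_img E h1, dim_lin hla i0]
      rw [dim_lin hla i0] at h3
      have h6 := Fintype.card_congr e
      omega
  · intro z hz hr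
    obtain ⟨Y, hY', h1⟩ := hcov _ (lin_comp hz e.symm) (by
      have h3 : img (Equiv.prodCongr e.symm (Equiv.refl σ)) {z} =
          {fun x : κ × σ => z (e.symm x.1, x.2)} := by
        unfold img
        rw [Set.image_singleton]
        rfl
      rw [← h3, finrank_lat_img]
      exact hr)
    refine ⟨_, ⟨Y, hY', rfl⟩, ⟨_, h1, ?_⟩⟩
    funext x
    obtain ⟨i, l⟩ := x
    show z (e.symm (e i), l) = z (i, l)
    rw [Equiv.symm_apply_apply]

/-- Points with many relations and the maximal atypical subvarieties. -/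
theorem ptFin_of_finAtyp {ι : Type} [Fintype ι] {V : Set (ι → ℂ)} (H : FinAtyp V) {r : ℝ}
    (hr : (dim V : ℝ) < r) : PtFin V r := by
  obtain ⟨𝒴, h1, h2, h3⟩ := H
  refine ⟨𝒴, h1, h2, fun z hz hrz => ?_⟩
  obtain ⟨Y, hY, h4⟩ := h3 {z} ⟨irred_singleton z, Set.singleton_subset_iff.2 hz, by
    rw [dim_singleton, zero_add]
    exact_mod_cast hr.trans_le hrz⟩
  exact ⟨Y, hY, h4 rfl⟩

/-- The line with two distinguished coordinates. -/
theorem exists_Ln {la c : σ → ℂ} (hla : ∀ i, la i ≠ 0) (hc : Function.Injective c) {i0 i1 : σ}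
    (hne : i0 ≠ i1) : ∃ H : Ln σ, ∀ κ : Type, lin la c κ = lin H.la H.cc κ := by
  have hd : c i1 - c i0 ≠ 0 := sub_ne_zero.2 fun h => hne (hc h).symm
  let H : Ln σ := {
    i0 := i0
    i1 := i1
    la := la
    hla := hla
    ga := fun i => (c i - c i0) / (c i1 - c i0)
    de := c i1 - c i0
    hde := hd
    hga := by
      intro i j hij
      dsimp only at hij
      rw [div_left_inj' hd, sub_left_inj] at hij
      exact hc hij
    h0 := by rw [sub_self, zero_div]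
    h1 := by rw [div_self hd] }
  have hcc : ∀ i, H.cc i = c i - c i0 := fun i => mul_div_cancel₀ _ hd
  refine ⟨H, fun κ => ?_⟩
  ext z
  constructor
  · rintro ⟨h1, h2⟩
    refine ⟨h1, fun k => ?_⟩
    obtain ⟨x, hx⟩ := h2 k
    refine ⟨x + c i0, fun i => ?_⟩
    rw [hx i, hcc]
    show la i * (x + c i) = la i * (x + c i0 + (c i - c i0))
    ring
  · rintro ⟨h1, h2⟩
    refine ⟨h1, fun k => ?_⟩
    obtain ⟨x, hx⟩ := h2 k
    refine ⟨x - c i0, fun i => ?_⟩
    rw [hx i, hcc]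
    show la i * (x + (c i - c i0)) = la i * (x - c i0 + c i)
    ring

theorem no_split' (Hh : Ln σ) {e h : ℕ}
    {g : Fin e → ℂ} {V₀ : Set (Fin h → ℂ)} (hS₀ : Split g V₀) (hh : 0 < h)
    (H : ∀ ε : ℝ, 0 < ε → ∀ m : ℕ, ∃ K, m ≤ K ∧
      PtFin (lin Hh.la Hh.cc (Fin K)) ((1 + ε) * K)) : False := by
  classical
  obtain ⟨hS, hcl⟩ := UE.Split.closure hS₀
  set V' : Set (Fin h → ℂ) := {v | (∀ j, v j ≠ 0) ∧ v ∈ zcl V₀} with hV'
  obtain ⟨s0, hs0, hsc⟩ := exists_indep hS.irred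
  obtain ⟨cop⟩ := exists_cop Hh hS.irred hS.torus (fun a ha c hc => hS.nonconst a ha c hc) hsc
  -- the numbers
  set N1 := h + Fintype.card (Bt s0) + (h + ∑ b, cop.N b) with hN1
  have hN0 : 0 < N1 := by omega
  set A1 := e + (1 + ∑ b, cop.N b) + Fintype.card σ + 1 with hA1
  obtain ⟨K, hK, HK⟩ := H (1 / (2 * N1)) (by positivity) (N1 * (2 * A1 + 2))
  set k := K / N1 with hk
  set j := K % N1 with hj
  have hKeq : K = k * N1 + j := by
    have h1 := Nat.div_add_mod K N1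
    rw [← hk, ← hj, mul_comm] at h1
    omega
  have hjN : j < N1 := Nat.mod_lt _ hN0
  have hkbig : 2 * A1 + 2 ≤ k := by
    rw [hk, Nat.le_div_iff_mul_le hN0, mul_comm]
    exact hK
  obtain ⟨ι', T, _, _, β, copy, idx, W, hP⟩ := exists_pow hS k
  have heq := VT_eq hP hcl hS
  have hirr : Irred (VT T V') := by
    rw [← heq]
    exact irred_img hP.pow.irred
  have hsys : Sys Hh (dat cop T j) (VT T V') ((Finset.univ : Finset T) ×ˢ s0) :=
    sys_dat cop j hS.irred hS.torus (fun a ha c hc => hS.nonconst a ha c hc) hs0 hirr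
  set E := dat cop T j with hE
  have hcard : Fintype.card (Gi E) = K := by
    rw [hE, card_gates, hP.cardT, ← hN1, ← hKeq]
  obtain ⟨𝒴, hfin, hY, hcov⟩ := PtFin.equiv Hh.hla Hh.i0 (Fintype.equivFinOfCardEq hcard) HK
  -- no member of the family contains the image
  have hUp : (idealOf (image Hh E (VT T V'))).IsPrime := irred_image hsys
  have hex : ∀ Y, Y ∈ 𝒴 → ∃ q, q ∈ idealOf Y ∧ q ∉ idealOf (image Hh E (VT T V')) := by
    intro Y hYm
    by_contra hall
    push Not at hall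
    obtain ⟨h1, h2, h3⟩ := hY Y hYm
    have hYt : InTorus Y := fun y hy => (h2 hy).1
    have h4 := upper hsys h1 hYt h2 hall
    rw [lat_eq hYt, dim_lin Hh.hla Hh.i0] at h3
    omega
  choose! q hq hq' using hex
  set P := ∏ Y ∈ hfin.toFinset, q Y with hPdef
  have hPU : P ∉ idealOf (image Hh E (VT T V')) := by
    intro hmem
    obtain ⟨Y, hYm, h3⟩ := (hUp.prod_mem_iff).1 hmem
    rw [Set.Finite.mem_toFinset] at hYm
    exact hq' Y hYm h3
  obtain ⟨F, hF⟩ := exists_pull_rat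
    (fun p : Gi E × σ => C (Hh.la p.2 * Hh.de) * nu Hh E p.1 p.2)
    (fun p : Gi E × σ => rename Sum.inl (tg Hh E p.1)) P
  have hF' : ∀ z : (T × Fin h) ⊕ Chn s0 T j → ℂ, (fun i => z (Sum.inl i)) ∈ VT T V' →
      (eval z F = 0 ↔ eval (phi Hh E z) P = 0) := fun z hz => hF z fun p => dn_ne hsys hz p.1
  obtain ⟨_, ⟨z, ⟨hz, hzg⟩, rfl⟩, hzP⟩ := exists_of_not_mem hPU
  obtain ⟨w0, hw0, x0, -, rfl⟩ := exists_elim hz
  have hzF : eval (Sum.elim w0 x0) F ≠ 0 := fun h1 => hzP ((hF' (Sum.elim w0 x0) hw0).1 h1)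
  have hfix : fixR x0 F ∉ idealOf (VT T V') := not_mem_of_eval hw0 (by rwa [eval_fixR])
  obtain ⟨w, hw, hwF, Λ, hΛ, hdim⟩ := dense_VT hP hcl hS hfix
  rw [eval_fixR, ← eval_fixL] at hwF
  have hfixL : fixL w F ≠ 0 := by
    intro h0
    rw [h0, map_zero] at hwF
    exact hwF rfl
  obtain ⟨x, hx, hxg, hxF⟩ := exists_good (H := Hh) (E := E) hfixL
  have hr := rank_point hsys (coef_ne cop) (fun c l => exists_coef cop j c l) hw hx hxg hΛ
  rw [card_coef] at hr
  have hy := phi_lin hsys (z := Sum.elim w x) hw hxg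
  have hlat : lat {phi Hh E (Sum.elim w x)} = rl (phi Hh E (Sum.elim w x)) hy.1 := lat_eq _
  have hs1 := (indep_VT (T := T) hs0 hS.irred.nonempty).card_le hirr
  rw [Fintype.card_coe] at hs1
  have h10 : K + k ≤ Module.finrank ℤ (lat {phi Hh E (Sum.elim w x)}) + A1 := by
    rw [hlat]
    omega
  obtain ⟨Y, hYm, h11⟩ := hcov _ hy (by
    have e1 : ((K + k : ℕ) : ℝ) ≤
      (Module.finrank ℤ (lat {phi Hh E (Sum.elim w x)}) + A1 : ℕ) := by exact_mod_cast h10
    have e2 : ((2 * A1 + 2 : ℕ) : ℝ) ≤ k := by exact_mod_cast hkbig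
    have e3 : (K : ℝ) = k * N1 + j := by exact_mod_cast hKeq
    have e4 : (j : ℝ) ≤ N1 := by exact_mod_cast hjN.le
    have hNr : (0 : ℝ) < N1 := by exact_mod_cast hN0
    have e5 : (1 / (2 * N1) : ℝ) * K ≤ k / 2 + 1 / 2 := by
      rw [e3, div_mul_eq_mul_div, one_mul, div_le_iff₀ (by positivity)]
      nlinarith
    push_cast at e1 e2
    nlinarith)
  apply hxF
  rw [hF' (Sum.elim w x) hw, hPdef, map_prod]
  refine Finset.prod_eq_zero (i := Y) ((Set.Finite.mem_toFinset _).2 hYm) ?_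
  exact mem_idealOf.1 (hq Y hYm) _ h11

/-- The assumption on the points of the powers of the line. -/
def Few (H : Ln σ) : Prop :=
  ∀ ε : ℝ, 0 < ε → ∀ m : ℕ, ∃ K, m ≤ K ∧ PtFin (lin H.la H.cc (Fin K)) ((1 + ε) * K)

theorem covered_of_few {Hh : Ln σ}
    (H : Few Hh) {ι : Type} [Fintype ι] (V : Set (ι → ℂ)) (ht : InTorus V) (hV : Irred V) :
    Covered V := by
  induction hd : dim V using Nat.strong_induction_on generalizing V with
  | _ d ih =>
    by_cases hns : Nonspecial V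
    · by_cases hde : DenseExcess V 1
      · exfalso
        obtain ⟨e, h, g, V', hS, -, hh⟩ := exists_split hV ht hns hde
        exact no_split' Hh hS hh H
      · exact covered_of_not_dense ht hV hde fun U hU1 hU2 hU3 => ih _ (by omega) U hU1 hU2 rfl
    · unfold Nonspecial at hns
      push Not at hns
      obtain ⟨a, ha, c, hc, hac⟩ := hns
      refine ⟨{(a, c)}, Set.finite_singleton _, ?_, ?_⟩
      · rintro p rfl
        exact ⟨ha, hc⟩
      · intro X hX
        exact ⟨(a, c), rfl, fun x hx => hac x (hX.2.1 hx)⟩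

/-- **Main theorem.** -/
theorem main {la c : σ → ℂ} (hla : ∀ i, la i ≠ 0) (hc : Function.Injective c)
    (hσ : 2 ≤ Fintype.card σ) : List.TFAE [
    ∀ n, Zilber n,
    ∀ K : ℕ, FinMax (lin la c (Fin K)),
    ∀ m : ℕ, ∃ K, m ≤ K ∧ FinMax (lin la c (Fin K)),
    ∀ ε : ℝ, 0 < ε → ∀ m : ℕ, ∃ K, m ≤ K ∧ PtFin (lin la c (Fin K)) ((1 + ε) * K)] := by
  obtain ⟨i0, i1, hne⟩ := Fintype.one_lt_card_iff.1 (by omega : 1 < Fintype.card σ)
  obtain ⟨H, hH⟩ := exists_Ln hla hc hne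
  have h1 : ∀ K : ℕ, FinMax (lin la c (Fin K)) ↔ FinAtyp (lin la c (Fin K)) := fun K =>
    finMax_iff (fun x hx => hx.1) (closed_lin hla i0)
  simp only [h1]
  tfae_have 1 → 2 := fun H K => finAtyp_of_zilber H (fun x hx => hx.1) (irred_lin hla i0)
  tfae_have 2 → 3 := fun H m => ⟨m, le_rfl, H m⟩
  tfae_have 3 → 4 := by
    intro H ε hε m
    obtain ⟨K, hK, h⟩ := H (max m 1)
    refine ⟨K, (le_max_left _ _).trans hK, ptFin_of_finAtyp h ?_⟩
    have h1 : (1 : ℝ) ≤ K := by exact_mod_cast (le_max_right m 1).trans hK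
    rw [dim_lin hla i0, Fintype.card_fin]
    nlinarith
  tfae_have 4 → 1 := fun H4 n =>
    zilber_of_covered fun V ht hV => covered_of_few (Hh := H) (fun ε hε m => by
      simp only [← hH]
      exact H4 ε hε m) V ht hV
  tfae_finish

end

end Pool.Agent.T6.H15.LN
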