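import Pool.Agent.T6.H15.LN.Upper

/-!
# The relations of the points of the image
-/

set_option autoImplicit false

open MvPolynomial

namespace Pool.Agent.T6.H15.LN

open Pool.Agent.T6.H15.ZP Pool.Agent.T6.H15.MZ Pool.Agent.T6.H15.UE Pool.Agent.T6.H15.HY

section

variable {σ : Type} [Fintype σ] [DecidableEq σ] {ι Ch : Type} [Fintype ι] [Fintype Ch]
  {H : Ln σ} {E : Dat ι Ch} {W : Set (ι → ℂ)} {s : Finset ι}

/-- the independent functions of a chain without the mask -/
abbrev Rp (H : Ln σ) (E : Dat ι Ch) (c : Ch) : Type := {p : Rx H E c // p ≠ Sum.inl H.i0}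

/-- the indices of the generators -/
abbrev Yi (H : Ln σ) (E : Dat ι Ch) (A : Type) : Type :=
  ι ⊕ ((Σ c : Ch, Rp H E c) ⊕ (A ⊕ (σ ⊕ Unit)))

theorem card_Rp (H : Ln σ) (E : Dat ι Ch) (c : Ch) :
    Fintype.card (Rp H E c) + 1 = Fintype.card (Rx H E c) := by
  classical
  have h1 : Fintype.card (Rp H E c) = Fintype.card (Rx H E c) - 1 := by
    rw [Fintype.card_subtype_compl, Fintype.card_subtype_eq]
  have h2 : 0 < Fintype.card (Rx H E c) := Fintype.card_pos_iff.2 ⟨Sum.inl H.i0⟩
  omega

/-- The relations of the points of the image. -/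
theorem rank_point (h : Sys H E W s) {A : Type} [Fintype A] {α : A → ℂ} (hα0 : ∀ x, α x ≠ 0)
    (hα : ∀ c (l : Fin (E.M c)), ∃ x, E.a c l = α x) {w : ι → ℂ} (hw : w ∈ W) {x : Ch → ℂ}
    (hx : ∀ c, RootU (x c)) (hg : eval (Sum.elim w x) (good H E) ≠ 0)
    {Λ : Submodule ℤ (ι → ℤ)} (hΛ : TorsOn {w} Λ) :
    Fintype.card (Gi E) + Module.finrank ℤ Λ ≤
      Module.finrank ℤ (rl (phi H E (Sum.elim w x)) (phi_ne h hw hg)) +
        (s.card + (Fintype.card A + Fintype.card σ + 1)) := by
  classical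
  set z : ι ⊕ Ch → ℂ := Sum.elim w x with hz
  let y : Yi H E A → ℂ := Sum.elim w (Sum.elim (fun p => eval z (nu H E (ix H E p.1 p.2).1
    (ix H E p.1 p.2).2)) (Sum.elim α (Sum.elim H.la fun _ => H.de)))
  have hy : ∀ i, y i ≠ 0 := by
    rintro (i | p | a | i | u)
    · exact h.tor w hw i
    · exact good_iff.1 hg _ _
    · exact hα0 a
    · exact H.hla i
    · exact H.hde
  have hyc : ∀ i, MonR y (y i) := fun i => MonR.coord i
  have hR : ∀ (c : Ch) (p : Rx H E c), p ≠ Sum.inl H.i0 →
      MonR y (eval z (nu H E (ix H E c p).1 (ix H E c p).2)) := fun c p hp =>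
    hyc (Sum.inr (Sum.inl ⟨c, ⟨p, hp⟩⟩))
  -- the sums
  have hP0 : ∀ (c : Ch) (l : Fin (E.M c)),
      MonR y (z (Sum.inr c) + eval (fun i => z (Sum.inl i)) (E.ps c (l + 1))) := by
    intro c l
    by_cases hl : (l : ℕ) < E.L c
    · have h1 := hR c (Sum.inr (Sum.inr ⟨l, hl⟩)) (by simp)
      have h2 : ix H E c (Sum.inr (Sum.inr ⟨l, hl⟩)) = (Sum.inr ⟨c, l⟩, H.i1) := rfl
      rw [h2] at h1
      dsimp only at h1
      rwa [eval_nu_i1] at h1
    · rcases h.hcl c with h3 | ⟨h3, h4⟩
      · have := l.2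
        omega
      · have h5 : (l : ℕ) + 1 = E.M c := by
          have := l.2
          omega
        have h7 : eval (fun i => z (Sum.inl i)) (E.ps c (E.M c)) = 0 :=
          mem_idealOf.1 h4 _ hw
        rw [h5, h7, add_zero]
        exact MonR.root (hx c)
  have hN : ∀ g i, MonR y (eval z (nu H E g i)) := by
    rintro (c | ⟨c, l⟩) i
    · by_cases hi : i = H.i0
      · rw [hi, eval_nu', H.h0, zero_mul, add_zero, sg, map_zero, add_zero]
        exact MonR.root (hx c)
      · exact hR c (Sum.inl i) (fun h0 => hi (Sum.inl_injective h0))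
    · by_cases hi : i = H.i0
      · rw [hi, eval_nu_i0]
        rcases Nat.eq_zero_or_pos (l : ℕ) with h0 | hpos
        · rw [h0, ps_zero, map_zero, add_zero]
          exact MonR.root (hx c)
        · have hl := l.2
          have h1 := hP0 c ⟨l - 1, by omega⟩
          dsimp only at h1
          rwa [Nat.sub_add_cancel hpos] at h1
      · by_cases hi1 : i = H.i1
        · rw [hi1, eval_nu_i1]
          exact hP0 c l
        · exact hR c (Sum.inr (Sum.inl (l, ⟨i, hi, hi1⟩))) (by simp)
  have hT : ∀ g, MonR y (eval (fun i => z (Sum.inl i)) (tg H E g)) := by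
    rintro (c | ⟨c, l⟩)
    · rw [tg, eval_C]
      exact hyc (Sum.inr (Sum.inr (Sum.inr (Sum.inr ()))))
    · rw [tg, eval_monomial']
      refine MonR.mul hy ?_ (MonR.prod hy _ fun j _ => MonR.pow hy (hyc (Sum.inl j)) _)
      obtain ⟨a, ha⟩ := hα c l
      rw [ha]
      exact hyc (Sum.inr (Sum.inr (Sum.inl a)))
  have hphi : ∀ p, ∃ (c : ℂ) (b : Yi H E A → ℤ), RootU c ∧ phi H E z p = c * chr y b := by
    rintro ⟨g, i⟩
    rw [phi_eq]
    exact ((hyc (Sum.inr (Sum.inr (Sum.inr (Sum.inl i))))).mul hy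
      (hyc (Sum.inr (Sum.inr (Sum.inr (Sum.inr ())))))).mul hy ((hN g i).div hy (hT g))
  have h1 : Fintype.card (Gi E × σ) + Module.finrank ℤ (rl y hy) ≤ Fintype.card (Yi H E A) +
      Module.finrank ℤ (rl (phi H E (Sum.elim w x)) (phi_ne h hw hg)) :=
    rank_mono (phi_ne h hw hg) hy hphi
  -- the relations of `w`
  have h2 : Module.finrank ℤ Λ ≤ Module.finrank ℤ (rl y hy) := by
    let ext : (ι → ℤ) →ₗ[ℤ] (Yi H E A → ℤ) :=
      Fintype.linearCombination ℤ fun i => Pi.single (Sum.inl i) (1 : ℤ)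
    have hext : ∀ a : ι → ℤ, ∀ i, ext a (Sum.inl i) = a i := by
      intro a i
      have h3 : ext a = ∑ i, a i • Pi.single (Sum.inl i) (1 : ℤ) :=
        Fintype.linearCombination_apply _ _ _
      rw [h3, Finset.sum_apply, Finset.sum_eq_single i]
      · simp
      · intro j _ hj
        have h4 : (Sum.inl i : Yi H E A) ≠ Sum.inl j := fun h => hj (Sum.inl_injective h).symm
        simp [Pi.single_apply, h4]
      · intro h
        exact absurd (Finset.mem_univ i) h
    have hinj : Function.Injective ext := by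
      intro a a' haa
      funext i
      rw [← hext a i, haa, hext]
    have h4 : Λ.map ext ≤ rl y hy := by
      rintro _ ⟨a, ha, rfl⟩
      rw [mem_rl]
      have h3 : ext a = ∑ i, a i • Pi.single (Sum.inl i) (1 : ℤ) :=
        Fintype.linearCombination_apply _ _ _
      rw [h3, chr_sum hy]
      obtain ⟨c, hc, hcw⟩ := hΛ a ha
      have h5 : ∏ i, chr y (a i • (Pi.single (Sum.inl i) (1 : ℤ) : Yi H E A → ℤ)) = chr w a := by
        unfold chr
        refine Finset.prod_congr rfl fun i _ => ?_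
        have h6 := chr_zsmul y (a i) (Pi.single (Sum.inl i) (1 : ℤ) : Yi H E A → ℤ)
        unfold chr at h6
        rw [h6]
        have h7 := chr_single y (Sum.inl i : Yi H E A)
        unfold chr at h7
        rw [h7]
        rfl
      rw [h5, hcw w rfl]
      exact hc
    have h5 := Submodule.finrank_mono h4
    have h6 : Module.finrank ℤ (Λ.map ext) = Module.finrank ℤ Λ :=
      (LinearEquiv.finrank_eq (Submodule.equivMapOfInjective ext hinj Λ)).symm
    omega
  have h3 : Fintype.card (Yi H E A) = Fintype.card ι + (∑ c, Fintype.card (Rp H E c) +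
      (Fintype.card A + (Fintype.card σ + 1))) := by
    rw [Fintype.card_sum, Fintype.card_sum, Fintype.card_sigma, Fintype.card_sum,
      Fintype.card_sum, Fintype.card_unit]
  have h3' : ∑ c, Fintype.card (Rp H E c) + Fintype.card Ch = ∑ c, Fintype.card (Rx H E c) := by
    have e1 : ∑ c, (Fintype.card (Rp H E c) + 1) = ∑ c, Fintype.card (Rx H E c) :=
      Finset.sum_congr rfl fun c _ => card_Rp H E c
    rw [Finset.sum_add_distrib, Finset.sum_const, Finset.card_univ, smul_eq_mul, mul_one] at e1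
    exact e1
  have h3'' : Fintype.card (Nm H E) = Fintype.card ι + ∑ c, Fintype.card (Rx H E c) := by
    rw [Fintype.card_sum, Fintype.card_sigma]
  have h4 := h.card
  have h5 := card_Gi (E := E)
  have h6 := card_Nm (H := H) (E := E)
  have h8 : Fintype.card (Gi E × σ) = Fintype.card Ch * Fintype.card σ +
      (∑ c, E.M c) * Fintype.card σ := by
    rw [Fintype.card_prod, h5]
    ring
  rw [h3] at h1
  omega

end

end Pool.Agent.T6.H15.LN
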