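import Pool.Agent.T6.H15.HY.Lit

/-!
# Chains of gates on the powers of a line
-/

set_option autoImplicit false

open MvPolynomial

namespace Pool.Agent.T6.H15.LN

open Pool.Agent.T6.H15.ZP Pool.Agent.T6.H15.MZ Pool.Agent.T6.H15.UE Pool.Agent.T6.H15.HY

/-- A line in general position: its points have the coordinates `la i * (x + de * ga i)`. -/
structure Ln (σ : Type) [Fintype σ] [DecidableEq σ] where
  i0 : σ
  i1 : σ
  la : σ → ℂ
  hla : ∀ i, la i ≠ 0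
  ga : σ → ℂ
  de : ℂ
  hde : de ≠ 0
  hga : Function.Injective ga
  h0 : ga i0 = 0
  h1 : ga i1 = 1

/-- The powers of the line `x ↦ (la_i (x + c_i))_i`. -/
def lin {σ : Type} (la c : σ → ℂ) (κ : Type) : Set (κ × σ → ℂ) :=
  {z | (∀ p, z p ≠ 0) ∧ ∀ k, ∃ x, ∀ i, z (k, i) = la i * (x + c i)}

section

variable {σ : Type} [Fintype σ] [DecidableEq σ]

/-- the constants -/
def Ln.cc (H : Ln σ) (i : σ) : ℂ := H.de * H.ga i

theorem Ln.ne (H : Ln σ) : H.i0 ≠ H.i1 := by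
  intro h
  have h1 := H.h1
  rw [← h, H.h0] at h1
  exact zero_ne_one h1

/-- chains of gates -/
structure Dat (ι Ch : Type) where
  M : Ch → ℕ
  L : Ch → ℕ
  hL : ∀ c, L c ≤ M c
  m : Ch → ℕ → (ι →₀ ℕ)
  a : Ch → ℕ → ℂ
  vis : ι → Ch

variable {ι Ch : Type} [Fintype ι] [Fintype Ch]

/-- the partial sums -/
noncomputable def Dat.ps (E : Dat ι Ch) (c : Ch) (l : ℕ) : MvPolynomial ι ℂ :=
  ∑ j ∈ Finset.range l, monomial (E.m c j) (E.a c j)

theorem ps_zero (E : Dat ι Ch) (c : Ch) : E.ps c 0 = 0 := by simp [Dat.ps]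

theorem ps_succ (E : Dat ι Ch) (c : Ch) (l : ℕ) : E.ps c (l + 1) =
    E.ps c l + monomial (E.m c l) (E.a c l) :=
  Finset.sum_range_succ _ _

/-- the indices of the gates -/
abbrev Gi (E : Dat ι Ch) : Type := Ch ⊕ (Σ c : Ch, Fin (E.M c))

/-- the chain of a gate -/
def chn {E : Dat ι Ch} : Gi E → Ch
  | Sum.inl c => c
  | Sum.inr p => p.1

/-- the sum at a gate -/
noncomputable def sg (E : Dat ι Ch) : Gi E → MvPolynomial ι ℂ
  | Sum.inl _ => 0
  | Sum.inr ⟨c, l⟩ => E.ps c l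

/-- the term at a gate -/
noncomputable def tg (H : Ln σ) (E : Dat ι Ch) : Gi E → MvPolynomial ι ℂ
  | Sum.inl _ => C H.de
  | Sum.inr ⟨c, l⟩ => monomial (E.m c l) (E.a c l)

/-- the functions at a gate, without the mask -/
noncomputable def rg (H : Ln σ) (E : Dat ι Ch) (g : Gi E) (i : σ) : MvPolynomial ι ℂ :=
  sg E g + C (H.ga i) * tg H E g

/-- the other slots -/
abbrev Oth (H : Ln σ) : Type := {i : σ // i ≠ H.i0 ∧ i ≠ H.i1}

/-- the indices of the independent functions of a chain -/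
abbrev Rx (H : Ln σ) (E : Dat ι Ch) (c : Ch) : Type := σ ⊕ ((Fin (E.M c) × Oth H) ⊕ Fin (E.L c))

/-- the place of an independent function -/
def ix (H : Ln σ) (E : Dat ι Ch) (c : Ch) : Rx H E c → Gi E × σ
  | Sum.inl i => (Sum.inl c, i)
  | Sum.inr (Sum.inl (l, i)) => (Sum.inr ⟨c, l⟩, i)
  | Sum.inr (Sum.inr l) => (Sum.inr ⟨c, l.castLE (E.hL c)⟩, H.i1)

theorem chn_ix (H : Ln σ) (E : Dat ι Ch) (c : Ch) (p : Rx H E c) : chn (ix H E c p).1 = c := by
  rcases p with i | ⟨l, i⟩ | l <;> rfl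

/-- All the properties. -/
structure Sys (H : Ln σ) (E : Dat ι Ch) (W : Set (ι → ℂ)) (s : Finset ι) : Prop where
  irr : Irred W
  tor : InTorus W
  ncon : ∀ (a : ι → ℤ) (c : ℂ), IsConst W a c → a = 0
  ind : Indep W (fun i : s => (i : ι))
  ha : ∀ c l, E.a c l ≠ 0
  hcl : ∀ c, E.L c = E.M c ∨ (E.L c + 1 = E.M c ∧ E.ps c (E.M c) ∈ idealOf W)
  hdist : ∀ c (p q : Rx H E c), p ≠ q →
    rg H E (ix H E c p).1 (ix H E c p).2 - rg H E (ix H E c q).1 (ix H E c q).2 ∉ idealOf W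
  vM : ∀ i, 0 < E.M (E.vis i)
  vm : ∀ i, E.m (E.vis i) 0 = Finsupp.single i 1
  va : ∀ i, E.a (E.vis i) 0 = 1
  dep : ∀ b, b ∉ s → ∃ c, E.L c + 1 = E.M c ∧ ∃ p : MvPolynomial (Option s) ℂ, p ≠ 0 ∧
    E.ps c (E.M c) = rename (fun o : Option s => (o.elim b (fun a => (a : ι)) : ι)) p
  card : Fintype.card ι + ∑ c, E.L c = s.card + ∑ c, E.M c

section Map

variable (H : Ln σ) (E : Dat ι Ch)

/-- numerators, without the coefficients -/
noncomputable def nu (g : Gi E) (i : σ) : MvPolynomial (ι ⊕ Ch) ℂ :=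
  X (Sum.inr (chn g)) + rename Sum.inl (rg H E g i)

theorem eval_nu (z : ι ⊕ Ch → ℂ) (g : Gi E) (i : σ) : eval z (nu H E g i) =
    z (Sum.inr (chn g)) + eval (fun i => z (Sum.inl i)) (rg H E g i) := by
  unfold nu
  rw [map_add, eval_X, eval_rename]
  rfl

theorem eval_nu' (z : ι ⊕ Ch → ℂ) (g : Gi E) (i : σ) : eval z (nu H E g i) =
    z (Sum.inr (chn g)) + (eval (fun i => z (Sum.inl i)) (sg E g) +
      H.ga i * eval (fun i => z (Sum.inl i)) (tg H E g)) := by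
  rw [eval_nu, rg, map_add, map_mul, eval_C]

/-- the map -/
noncomputable def phi (z : ι ⊕ Ch → ℂ) : Gi E × σ → ℂ :=
  fun p => eval z (C (H.la p.2 * H.de) * nu H E p.1 p.2) / eval z (rename Sum.inl (tg H E p.1))

theorem phi_eq (z : ι ⊕ Ch → ℂ) (g : Gi E) (i : σ) :
    phi H E z (g, i) = H.la i * H.de * (eval z (nu H E g i) /
      eval (fun i => z (Sum.inl i)) (tg H E g)) := by
  unfold phi
  dsimp only
  rw [map_mul, eval_C, mul_div_assoc, eval_rename]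
  rfl

/-- the polynomial which defines the complement of the domain -/
noncomputable def good : MvPolynomial (ι ⊕ Ch) ℂ := ∏ p : Gi E × σ, nu H E p.1 p.2

variable {H E}

theorem good_iff {z : ι ⊕ Ch → ℂ} : eval z (good H E) ≠ 0 ↔
    ∀ g i, eval z (nu H E g i) ≠ 0 := by
  unfold good
  rw [map_prod, Finset.prod_ne_zero_iff]
  exact ⟨fun h g i => h (g, i) (Finset.mem_univ _), fun h p _ => h p.1 p.2⟩

theorem eval_mono_ne {x : ι → ℂ} (hx : ∀ i, x i ≠ 0) {a : ℂ} (ha : a ≠ 0) (m : ι →₀ ℕ) :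
    eval x (monomial m a) ≠ 0 := by
  rw [eval_monomial]
  exact mul_ne_zero ha (Finset.prod_ne_zero_iff.2 fun i _ => pow_ne_zero _ (hx i))

variable {W : Set (ι → ℂ)} {s : Finset ι}

theorem tg_ne (ha : ∀ c l, E.a c l ≠ 0) {w : ι → ℂ} (hw : ∀ i, w i ≠ 0) (g : Gi E) :
    eval w (tg H E g) ≠ 0 := by
  rcases g with c | ⟨c, l⟩
  · rw [tg, eval_C]
    exact H.hde
  · rw [tg]
    exact eval_mono_ne hw (ha c l) _

theorem phi_ne (h : Sys H E W s) {z : ι ⊕ Ch → ℂ} (hw : (fun i => z (Sum.inl i)) ∈ W)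
    (hz : eval z (good H E) ≠ 0) (p : Gi E × σ) : phi H E z p ≠ 0 := by
  obtain ⟨g, i⟩ := p
  rw [phi_eq]
  exact mul_ne_zero (mul_ne_zero (H.hla i) H.hde) (div_ne_zero (good_iff.1 hz g i)
    (tg_ne h.ha (h.tor _ hw) g))

theorem phi_lin (h : Sys H E W s) {z : ι ⊕ Ch → ℂ} (hw : (fun i => z (Sum.inl i)) ∈ W)
    (hz : eval z (good H E) ≠ 0) : phi H E z ∈ lin H.la H.cc (Gi E) := by
  refine ⟨phi_ne h hw hz, fun g => ⟨H.de * ((z (Sum.inr (chn g)) +
    eval (fun i => z (Sum.inl i)) (sg E g)) / eval (fun i => z (Sum.inl i)) (tg H E g)),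
    fun i => ?_⟩⟩
  rw [phi_eq, eval_nu']
  have h1 := tg_ne (H := H) h.ha (h.tor _ hw) g
  unfold Ln.cc
  field_simp
  ring

/-- the image -/
noncomputable def image (H : Ln σ) (E : Dat ι Ch) (W : Set (ι → ℂ)) : Set (Gi E × σ → ℂ) :=
  phi H E '' {z | z ∈ prodSet W Set.univ ∧ eval z (good H E) ≠ 0}

theorem fix_good (w : ι → ℂ) : fixL w (good H E) ≠ 0 := by
  unfold good
  rw [map_prod, Finset.prod_ne_zero_iff]
  rintro ⟨g, i⟩ _ hq
  have h1 := eval_fixL w (fun _ : Ch => 1 - eval w (rg H E g i)) (nu H E g i)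
  dsimp only at hq
  rw [hq, map_zero, eval_nu] at h1
  have h2 : (0 : ℂ) = (1 - eval w (rg H E g i)) + eval w (rg H E g i) := h1
  rw [sub_add_cancel] at h2
  exact zero_ne_one h2

theorem exists_good {w : ι → ℂ} {F : MvPolynomial (ι ⊕ Ch) ℂ} (hF : fixL w F ≠ 0) :
    ∃ x : Ch → ℂ, (∀ c, RootU (x c)) ∧ eval (Sum.elim w x) (good H E) ≠ 0 ∧
      eval (Sum.elim w x) F ≠ 0 := by
  obtain ⟨x, h1, h2⟩ := exists_tors (mul_ne_zero (fix_good (H := H) (E := E) w) hF)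
  rw [← map_mul, eval_fixL, map_mul] at h2
  exact ⟨x, h1, left_ne_zero_of_mul h2, right_ne_zero_of_mul h2⟩

theorem exists_good' (H : Ln σ) (E : Dat ι Ch) (w : ι → ℂ) :
    ∃ x : Ch → ℂ, eval (Sum.elim w x) (good H E) ≠ 0 := by
  obtain ⟨x, -, h1, -⟩ := exists_good (H := H) (E := E) (w := w) (F := 1) (by
    rw [map_one]
    exact one_ne_zero)
  exact ⟨x, h1⟩

theorem good_not_mem (h : Sys H E W s) : good H E ∉ idealOf (prodSet W (Set.univ : Set (Ch → ℂ))) := by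
  obtain ⟨w, hw⟩ := h.irr.nonempty
  obtain ⟨x, h1⟩ := exists_good' H E w
  exact not_mem_of_eval (elim_mem hw (Set.mem_univ x)) h1

theorem dn_ne (h : Sys H E W s) {z : ι ⊕ Ch → ℂ} (hw : (fun i => z (Sum.inl i)) ∈ W) (g : Gi E) :
    eval z (rename Sum.inl (tg H E g)) ≠ 0 := by
  rw [eval_rename]
  exact tg_ne h.ha (h.tor _ hw) g

theorem irred_image (h : Sys H E W s) : Irred (image H E W) :=
  irred_rat (h.irr.prod isVar_univ.irred)
    (fun p : Gi E × σ => C (H.la p.2 * H.de) * nu H E p.1 p.2)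
    (fun p : Gi E × σ => rename Sum.inl (tg H E p.1)) (good_not_mem h)
    fun _ hx _ p => dn_ne h hx.1 p.1

theorem image_lin (h : Sys H E W s) : image H E W ⊆ lin H.la H.cc (Gi E) := by
  rintro _ ⟨z, ⟨hz, hg⟩, rfl⟩
  exact phi_lin h hz.1 hg

theorem image_torus (h : Sys H E W s) : InTorus (image H E W) := fun y hy =>
  (image_lin h hy).1

end Map

end

end Pool.Agent.T6.H15.LN
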