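import Pool.Agent.T6.H15.LN.Ind

/-!
# The defects of closed sets which contain the image
-/

set_option autoImplicit false

open MvPolynomial

namespace Pool.Agent.T6.H15.LN

open Pool.Agent.T6.H15.ZP Pool.Agent.T6.H15.MZ Pool.Agent.T6.H15.UE Pool.Agent.T6.H15.HY

section

variable {σ : Type} [Fintype σ] [DecidableEq σ] {ι Ch : Type} [Fintype ι] [Fintype Ch]
  {H : Ln σ} {E : Dat ι Ch} {W : Set (ι → ℂ)} {s : Finset ι}

/-- the functions and coordinates -/
abbrev Zi (σ : Type) (E : Dat ι Ch) : Type := ι ⊕ (Gi E × σ)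

/-- the functions and coordinates -/
noncomputable def zf (H : Ln σ) (E : Dat ι Ch) : Zi σ E → (Gi E × σ → ℂ) → ℂ
  | Sum.inl i => Xm H E i
  | Sum.inr p => Nf H E p.1 p.2

theorem isMon_zf (j : Zi σ E) : IsMonC (zf H E j) := by
  rcases j with i | p
  · exact isMon_Xm H E i
  · exact isMon_Nf H E _ _

/-- the terms, from the coordinates -/
noncomputable def tb (H : Ln σ) (E : Dat ι Ch) : Gi E → (Zi σ E → ℂ) → ℂ
  | Sum.inl _ => fun _ => H.de
  | Sum.inr ⟨c, l⟩ => fun z => E.a c l * ∏ j, z (Sum.inl j) ^ (E.m c l j)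

/-- the coordinates of the gates, from the sums -/
noncomputable def back (H : Ln σ) (E : Dat ι Ch) (p : Gi E × σ) (z : Zi σ E → ℂ) : ℂ :=
  (H.la p.2 * H.de) * (z (Sum.inr p) * (tb H E p.1 z)⁻¹)

theorem isMon_tb (h : Sys H E W s) (g : Gi E) : IsMonC (tb H E g) := by
  rcases g with c | ⟨c, l⟩
  · exact IsMonC.const H.hde
  · exact (IsMonC.const (h.ha c l)).mul (IsMonC.prod _ fun j _ => (IsMonC.coord _).pow _)

theorem isMon_back (h : Sys H E W s) (p : Gi E × σ) : IsMonC (back H E p) :=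
  (IsMonC.const (mul_ne_zero (H.hla _) H.hde)).mul
    ((IsMonC.coord _).mul (isMon_tb h p.1).inv)

section Rel

variable {Y : Set (Gi E × σ → ℂ)}

theorem eval_monomial' (x : ι → ℂ) (m : ι →₀ ℕ) (a : ℂ) :
    eval x (monomial m a) = a * ∏ i, x i ^ m i := by
  rw [eval_monomial, Finsupp.prod_fintype]
  intro i
  exact pow_zero _

theorem rel_T (h : Sys H E W s) (hYt : InTorus Y) (hI : idealOf Y ≤ idealOf (image H E W))
    (hle : constLat (image H E W) (image_torus h) ≤ constLat Y hYt) {y : Gi E × σ → ℂ}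
    (hy : y ∈ Y) (g : Gi E) :
    Tf H E g y = eval (fun i => Xm H E i y) (tg H E g) := by
  rcases g with c | ⟨c, l⟩
  · unfold Tf tg
    rw [eval_C]
  have hm : IsMonC (fun y => Tf H E (Sum.inr ⟨c, l⟩) y * (∏ i, Xm H E i y ^ (E.m c l i))⁻¹) :=
    (isMon_Tf H E _).mul (IsMonC.prod _ fun i _ => (isMon_Xm H E i).pow _).inv
  have h1 := hm.transfer (image_torus h) hYt (irred_image h).nonempty hle hI (c := E.a c l) (by
    rintro _ ⟨z, ⟨hz, hg⟩, rfl⟩
    rw [Tf_phi h hz.1 hg, tg, eval_monomial']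
    simp only [Xm_phi h hz.1 hg]
    have h2 : (∏ i, z (Sum.inl i) ^ (E.m c l i)) ≠ 0 :=
      Finset.prod_ne_zero_iff.2 fun i _ => pow_ne_zero _ (h.tor _ hz.1 i)
    exact mul_inv_cancel_right₀ h2 _) y hy
  rw [tg, eval_monomial', ← h1]
  have h2 : (∏ i, Xm H E i y ^ (E.m c l i)) ≠ 0 :=
    Finset.prod_ne_zero_iff.2 fun i _ => pow_ne_zero _ ((isMon_Xm H E i).ne_zero (hYt y hy))
  exact (inv_mul_cancel_right₀ h2 _).symm

theorem rel_P (h : Sys H E W s) (hYt : InTorus Y) (hYh : Y ⊆ lin H.la H.cc (Gi E))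
    (hI : idealOf Y ≤ idealOf (image H E W))
    (hle : constLat (image H E W) (image_torus h) ≤ constLat Y hYt) {y : Gi E × σ → ℂ}
    (hy : y ∈ Y) (c : Ch) (l : ℕ) (hl : l ≤ E.M c) :
    Pm H E c l y = Pm H E c 0 y + eval (fun i => Xm H E i y) (E.ps c l) := by
  induction l with
  | zero => rw [ps_zero, map_zero, add_zero]
  | succ l ih =>
    have h1 := Pm_succ (H := H) y c ⟨l, hl⟩
    rw [Nf_add (hYh hy), Nf_zero (hYt y hy), H.h1, one_mul, rel_T h hYt hI hle hy] at h1
    dsimp only at h1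
    rw [h1, ih (by omega), ps_succ, map_add, add_assoc]
    rfl

theorem rel_N (h : Sys H E W s) (hYt : InTorus Y) (hYh : Y ⊆ lin H.la H.cc (Gi E))
    (hI : idealOf Y ≤ idealOf (image H E W))
    (hle : constLat (image H E W) (image_torus h) ≤ constLat Y hYt) {y : Gi E × σ → ℂ}
    (hy : y ∈ Y) (g : Gi E) (i : σ) : Nf H E g i y =
      Nf H E (Sum.inl (chn g)) H.i0 y + eval (fun i => Xm H E i y) (rg H E g i) := by
  rw [Nf_add (hYh hy), rel_T h hYt hI hle hy, rg, map_add, map_mul, eval_C, ← add_assoc]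
  congr 1
  rcases g with c | ⟨c, l⟩
  · rw [sg, map_zero, add_zero]
    rfl
  · rw [Nf_zero (hYt y hy), rel_P h hYt hYh hI hle hy c l l.2.le, Pm_zero]
    rfl

theorem rel_cl (h : Sys H E W s) (hYt : InTorus Y) (hYh : Y ⊆ lin H.la H.cc (Gi E))
    (hI : idealOf Y ≤ idealOf (image H E W))
    (hle : constLat (image H E W) (image_torus h) ≤ constLat Y hYt) {y : Gi E × σ → ℂ}
    (hy : y ∈ Y) (c : Ch) (hc : E.L c + 1 = E.M c) :
    eval (fun i => Xm H E i y) (E.ps c (E.M c)) = 0 := by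
  have hps : E.ps c (E.M c) ∈ idealOf W := by
    rcases h.hcl c with h1 | h1
    · omega
    · exact h1.2
  have hm : IsMonC (fun y => Pm H E c (E.M c) y * (Pm H E c 0 y)⁻¹) :=
    (isMon_Pm H E c _).mul (isMon_Pm H E c 0).inv
  have h1 := hm.transfer (image_torus h) hYt (irred_image h).nonempty hle hI (c := 1) (by
    rintro _ ⟨z, ⟨hz, hg⟩, rfl⟩
    rw [Pm_phi h hz.1 hg c _ le_rfl, Pm_phi h hz.1 hg c 0 (Nat.zero_le _), ps_zero, map_zero,
      mem_idealOf.1 hps _ hz.1, add_zero]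
    have h2 := good_iff.1 hg (Sum.inl c) H.i0
    rw [eval_nu', H.h0, zero_mul, add_zero, sg, map_zero, add_zero] at h2
    exact mul_inv_cancel₀ h2) y hy
  have h2 : Pm H E c 0 y ≠ 0 := (isMon_Pm H E c 0).ne_zero (hYt y hy)
  have h3 := rel_P h hYt hYh hI hle hy c (E.M c) le_rfl
  have h4 : Pm H E c (E.M c) y = Pm H E c 0 y := by
    rw [← div_eq_mul_inv, div_eq_one_iff_eq h2] at h1
    exact h1
  rw [h4] at h3
  linear_combination -h3

theorem back_zf (h : Sys H E W s) (hYt : InTorus Y) (hI : idealOf Y ≤ idealOf (image H E W))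
    (hle : constLat (image H E W) (image_torus h) ≤ constLat Y hYt) {y : Gi E × σ → ℂ}
    (hy : y ∈ Y) (p : Gi E × σ) : back H E p (fun j => zf H E j y) = y p := by
  obtain ⟨g, i⟩ := p
  have ht : tb H E g (fun j => zf H E j y) = Tf H E g y := by
    rw [rel_T h hYt hI hle hy]
    rcases g with c | ⟨c, l⟩
    · unfold tb tg
      rw [eval_C]
    · rw [tg, eval_monomial']
      rfl
  unfold back
  rw [ht]
  show (H.la i * H.de) * (Nf H E g i y * (Tf H E g y)⁻¹) = y (g, i)
  have h3 := H.hde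
  have h4 := H.hla i
  rcases g with c | ⟨c, l⟩
  · unfold Nf Tf Fc
    dsimp only
    field_simp
  · have h5 : Fc H E (Sum.inr ⟨c, l⟩) H.i0 y ≠ 0 := Fc_ne (hYt y hy) _ _
    have h6 : Pm H E c l y ≠ 0 := (isMon_Pm H E c l).ne_zero (hYt y hy)
    have h7 : H.la i * Fc H E (Sum.inr ⟨c, l⟩) i y = y (Sum.inr ⟨c, l⟩, i) := by
      unfold Fc
      rw [mul_inv_cancel_left₀ h4]
    rw [← h7]
    unfold Nf Tf
    dsimp only
    field_simp

end Rel

/-- the coordinates stay independent -/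
theorem indep_Z (h : Sys H E W s) {Y : Set (Gi E × σ → ℂ)} (hYt : InTorus Y)
    (hI : idealOf Y ≤ idealOf (image H E W)) {k : Zi σ E → ℂ} {b : Zi σ E → Gi E × σ → ℤ}
    (hb : ∀ (j : Zi σ E) (y : Gi E × σ → ℂ), (∀ i, y i ≠ 0) → zf H E j y = k j * chr y (b j)) :
    Indep (monoC k b '' Y) (fun i : s => (Sum.inl (i : ι) : Zi σ E)) := by
  intro q hq
  apply h.ind q
  intro w hw
  obtain ⟨F, hF⟩ := exists_pullC (fun i : s => k (Sum.inl (i : ι)))
    (fun i : s => b (Sum.inl (i : ι))) q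
  have hcomp : ∀ y : Gi E × σ → ℂ, monoC (fun i : s => k (Sum.inl (i : ι)))
      (fun i : s => b (Sum.inl (i : ι))) y = fun i : s => monoC k b y (Sum.inl (i : ι)) :=
    fun y => rfl
  have hF1 : F ∈ idealOf Y := by
    rw [mem_idealOf]
    intro y hy
    rw [hF y (hYt y hy), hcomp]
    exact hq (monoC k b y) (Set.mem_image_of_mem _ hy)
  obtain ⟨x, hx⟩ := exists_good' H E w
  have hmem : phi H E (Sum.elim w x) ∈ image H E W :=
    Set.mem_image_of_mem _ ⟨elim_mem hw (Set.mem_univ x), hx⟩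
  have h2 := mem_idealOf.1 (hI hF1) _ hmem
  rw [hF _ (image_torus h _ hmem), hcomp] at h2
  have h3 : (fun i : s => monoC k b (phi H E (Sum.elim w x)) (Sum.inl (i : ι))) =
      fun i : s => w i := by
    funext i
    have h4 := hb (Sum.inl (i : ι)) _ (image_torus h _ hmem)
    have h5 : zf H E (Sum.inl (i : ι)) (phi H E (Sum.elim w x)) = w i := by
      rw [zf, Xm_phi h (z := Sum.elim w x) hw hx]
      rfl
    unfold monoC
    rw [← h4, h5]
  rw [h3] at h2
  exact h2

/-- The dimension. -/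
theorem dim_le (h : Sys H E W s) {Y : Set (Gi E × σ → ℂ)} (hY : Irred Y) (hYt : InTorus Y)
    (hYh : Y ⊆ lin H.la H.cc (Gi E)) (hI : idealOf Y ≤ idealOf (image H E W))
    (hle : constLat (image H E W) (image_torus h) ≤ constLat Y hYt) :
    dim Y ≤ s.card + Fintype.card Ch := by
  classical
  have hm := fun j : Zi σ E => isMon_zf (H := H) j
  choose k b hk hb using hm
  have hm' := fun p : Gi E × σ => isMon_back h p
  choose k' b' hk' hb' using hm'
  set Z : Set (Zi σ E → ℂ) := monoC k b '' Y with hZ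
  have hzf : ∀ y ∈ Y, monoC k b y = fun j => zf H E j y := by
    intro y hy
    funext j
    exact (hb j y (hYt y hy)).symm
  have hZi : Irred Z := irred_monoC hk b hY hYt
  have hZt : InTorus Z := by
    rintro _ ⟨y, hy, rfl⟩ j
    exact monoC_ne_zero hk b (hYt y hy) j
  have hYZ : monoC k' b' '' Z = Y := by
    rw [hZ, ← Set.image_comp]
    have h1 : ∀ y ∈ Y, (monoC k' b' ∘ monoC k b) y = y := by
      intro y hy
      funext p
      show k' p * chr (monoC k b y) (b' p) = y p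
      rw [← hb' p (monoC k b y) (fun j => monoC_ne_zero hk b (hYt y hy) j), hzf y hy]
      exact back_zf h hYt hI hle hy p
    ext y
    constructor
    · rintro ⟨y, hy, rfl⟩
      rw [h1 y hy]
      exact hy
    · intro hy
      exact ⟨y, hy, h1 y hy⟩
  have hdim : dim Y ≤ dim Z := by
    have h1 := dim_monoC_le hk' b' hZi hZt
    rwa [hYZ] at h1
  refine hdim.trans ?_
  -- identities on `Z`
  have hZ1 : ∀ z ∈ Z, ∀ (g : Gi E) (i : σ), z (Sum.inr (g, i)) =
      z (Sum.inr (Sum.inl (chn g), H.i0)) + eval (fun i => z (Sum.inl i)) (rg H E g i) := by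
    rintro _ ⟨y, hy, rfl⟩ g i
    rw [hzf y hy]
    exact rel_N h hYt hYh hI hle hy g i
  have hZ3 : ∀ z ∈ Z, ∀ c, E.L c + 1 = E.M c →
      eval (fun i => z (Sum.inl i)) (E.ps c (E.M c)) = 0 := by
    rintro _ ⟨y, hy, rfl⟩ c hc
    rw [hzf y hy]
    exact rel_cl h hYt hYh hI hle hy c hc
  have hZ4 : Indep Z (fun i : s => (Sum.inl (i : ι) : Zi σ E)) := indep_Z h hYt hI hb
  -- the transcendence basis
  have hZp : (idealOf Z).IsPrime := hZi
  set QB := MvPolynomial (Zi σ E) ℂ ⧸ idealOf Z with hQB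
  set z_ : Zi σ E → QB := fun i => Ideal.Quotient.mk (idealOf Z) (MvPolynomial.X i) with hz_
  set T0 : Finset (Zi σ E) := (s.image fun i => (Sum.inl i : Zi σ E)) ∪
    ((Finset.univ : Finset Ch).image fun c => (Sum.inr (Sum.inl c, H.i0) : Zi σ E)) with hT0
  set A0 := Algebra.adjoin ℂ (z_ '' (T0 : Set _)) with hA0
  have hmk : ∀ q q' : MvPolynomial (Zi σ E) ℂ, (∀ z ∈ Z, eval z q = eval z q') →
      Ideal.Quotient.mk (idealOf Z) q = Ideal.Quotient.mk (idealOf Z) q' := by
    intro q q' hq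
    rw [Ideal.Quotient.eq, mem_idealOf]
    intro y hy
    rw [map_sub, hq y hy, sub_self]
  have halgC : ∀ d : ℂ, IsAlgebraic A0 (Ideal.Quotient.mk (idealOf Z) (C d) : QB) := by
    intro d
    have h1 : (Ideal.Quotient.mk (idealOf Z) (C d) : QB) =
        algebraMap A0 QB (algebraMap ℂ A0 d) := rfl
    rw [h1]
    exact isAlgebraic_algebraMap _
  have hS0 : ∀ a ∈ s, z_ (Sum.inl a) ∈ z_ '' (T0 : Set _) := by
    intro a ha
    refine ⟨_, ?_, rfl⟩
    rw [hT0, Finset.coe_union]
    left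
    rw [Finset.mem_coe, Finset.mem_image]
    exact ⟨a, ha, rfl⟩
  have hM0 : ∀ c, z_ (Sum.inr (Sum.inl c, H.i0)) ∈ z_ '' (T0 : Set _) := by
    intro c
    refine ⟨_, ?_, rfl⟩
    rw [hT0, Finset.coe_union]
    right
    rw [Finset.mem_coe, Finset.mem_image]
    exact ⟨c, Finset.mem_univ _, rfl⟩
  have halgM : ∀ c, IsAlgebraic A0 (z_ (Sum.inr (Sum.inl c, H.i0))) := fun c =>
    isAlgebraic_algebraMap (⟨_, Algebra.subset_adjoin (hM0 c)⟩ : A0)
  have halgX : ∀ a, IsAlgebraic A0 (z_ (Sum.inl a)) := by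
    intro a
    by_cases ha : a ∈ s
    · exact isAlgebraic_algebraMap (⟨_, Algebra.subset_adjoin (hS0 a ha)⟩ : A0)
    obtain ⟨c, hc, p, hp, hps⟩ := h.dep a ha
    have hind : AlgebraicIndependent ℂ (fun i : s => z_ (Sum.inl (i : ι))) :=
      (indep_iff _ _).1 hZ4
    have hnot : ¬ AlgebraicIndependent ℂ (fun o : Option s =>
        o.elim (z_ (Sum.inl a)) fun i => z_ (Sum.inl (i : ι))) := by
      rw [algebraicIndependent_iff]
      push Not
      refine ⟨p, ?_, hp⟩
      have h1 : aeval (fun o : Option s => o.elim (z_ (Sum.inl a))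
          fun i => z_ (Sum.inl (i : ι))) p =
          Ideal.Quotient.mk (idealOf Z) (rename (fun o : Option s =>
            (Sum.inl (o.elim a fun i => (i : ι)) : Zi σ E)) p) := by
        rw [← aeval_mk Z (fun o : Option s => (Sum.inl (o.elim a fun i => (i : ι)) : Zi σ E))]
        congr 1
        congr 1
        funext o
        rcases o with - | o <;> rfl
      rw [h1, Ideal.Quotient.eq_zero_iff_mem, mem_idealOf]
      intro z hz
      rw [eval_rename]
      have h2 := hZ3 z hz c hc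
      rw [hps, eval_rename] at h2
      exact h2
    have halg : IsAlgebraic (Algebra.adjoin ℂ
        (Set.range fun i : s => z_ (Sum.inl (i : ι)))) (z_ (Sum.inl a)) := by
      by_contra hcon
      exact hnot ((hind.option_iff_transcendental _).2 hcon)
    refine halg.adjoin_of_forall_isAlgebraic ?_
    rintro _ ⟨⟨i, rfl⟩, hi⟩
    exact absurd (hS0 i i.2) hi
  have halgP : ∀ q : MvPolynomial ι ℂ, IsAlgebraic A0 (Ideal.Quotient.mk (idealOf Z)
      (rename (fun a => (Sum.inl a : Zi σ E)) q) : QB) := by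
    intro q
    induction q using MvPolynomial.induction_on with
    | C d =>
      rw [rename_C]
      exact halgC d
    | add q q' hq hq' =>
      rw [map_add, map_add]
      exact hq.add hq'
    | mul_X q i hq =>
      rw [map_mul, map_mul, rename_X]
      exact hq.mul (halgX i)
  obtain ⟨S, hS1, hS2, hS3⟩ := exists_indep_in hZi (T0 : Set _) (by
    intro i
    show IsAlgebraic A0 (z_ i)
    rcases i with a | ⟨g, i⟩
    · exact halgX a
    · have h2 : z_ (Sum.inr (g, i)) = z_ (Sum.inr (Sum.inl (chn g), H.i0)) +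
          Ideal.Quotient.mk (idealOf Z) (rename (fun a => (Sum.inl a : Zi σ E))
            (rg H E g i)) := by
        rw [hz_]
        dsimp only
        rw [← map_add]
        apply hmk
        intro z hz
        rw [map_add, eval_X, eval_X, eval_rename]
        exact hZ1 z hz g i
      rw [h2]
      exact (halgM _).add (halgP _))
  rw [← hS3]
  have c1 := Finset.card_le_card (fun i hi => hS1 i hi : S ⊆ T0)
  have c2 : T0.card ≤ s.card + Fintype.card Ch := by
    rw [hT0]
    refine (Finset.card_union_le _ _).trans (add_le_add Finset.card_image_le ?_)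
    exact Finset.card_image_le.trans (by rw [Finset.card_univ])
  exact c1.trans c2

theorem lin_closure {κ : Type} {la c : σ → ℂ} (hla : ∀ i, la i ≠ 0) (i0 : σ)
    {Y Y' : Set (κ × σ → ℂ)} (hY : Y ⊆ lin la c κ)
    (hY' : InTorus Y') (hI : idealOf Y ≤ idealOf Y') : Y' ⊆ lin la c κ := by
  intro y hy
  refine ⟨hY' y hy, fun k => ⟨(la i0)⁻¹ * y (k, i0) - c i0, fun i => ?_⟩⟩
  have h1 : (X (k, i) - C (la i) * (C (la i0)⁻¹ * X (k, i0) - C (c i0) + C (c i)) :
      MvPolynomial (κ × σ) ℂ) ∈ idealOf Y := by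
    rw [mem_idealOf]
    intro z hz
    obtain ⟨x, hx⟩ := (hY hz).2 k
    simp only [map_sub, map_mul, map_add, eval_C, eval_X]
    rw [hx i, hx i0, inv_mul_cancel_left₀ (hla i0)]
    ring
  have h2 := mem_idealOf.1 (hI h1) y hy
  simp only [map_sub, map_mul, map_add, eval_C, eval_X] at h2
  exact sub_eq_zero.1 h2

/-- **The estimate.** -/
theorem upper (h : Sys H E W s) {Y : Set (Gi E × σ → ℂ)} (hY : Irred Y) (hYt : InTorus Y)
    (hYh : Y ⊆ lin H.la H.cc (Gi E)) (hI : idealOf Y ≤ idealOf (image H E W)) :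
    dim Y + Module.finrank ℤ (tl Y hYt) ≤ Fintype.card (Gi E) := by
  obtain ⟨Y1, ht1, a1, a2, a3, a4, a5⟩ := exists_full_const (irred_image h) (image_torus h) _
    Y hYt hY hI (Nat.le_add_left _ _)
  have b1 := dim_le h a1 ht1 (lin_closure H.hla H.i0 hYh ht1 a2) a3 a4
  have b2 := rank_const h
  have b3 := Submodule.finrank_mono (constLat_le ht1 (image_torus h) a3)
  have b4 := Submodule.finrank_mono (tl_le_constLat hYt)
  have b5 := h.card
  have b6 := card_Nm (H := H) (E := E)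
  have b7 := card_Gi (E := E)
  have b8 : Fintype.card (Gi E × σ) = Fintype.card Ch * Fintype.card σ +
      (∑ c, E.M c) * Fintype.card σ := by
    rw [Fintype.card_prod, b7]
    ring
  omega

end

end Pool.Agent.T6.H15.LN
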